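import Pool.Agent.Helper26.Cm.Tr

/-! # Convergence of the time averages of continuous covariant observables -/

set_option autoImplicit false

open MeasureTheory Filter Topology ProbabilityTheory
open scoped BigOperators ENNReal NNReal InnerProductSpace ComplexConjugate

namespace Pool.Agent.Helper26.Cm

open Pool.Agent.H5R2.NB Pool.Agent.Helper26.Nb

variable {d : ℕ} {α : Type} [MeasurableSpace α] [TopologicalSpace α]
  [SecondCountableTopology α] [BorelSpace α]
  {c : ℝ} {ev : (Site d → ℝ) → UG (L2 (Site d))} {p p' : α → ℝ}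
  {v : (Site d → α) → L2 (Site d) →L[ℂ] L2 (Site d)}

omit [TopologicalSpace α] [SecondCountableTopology α] [BorelSpace α] in
lemma cov_neg (hv : Cv v) {z : Site d} {S : L2 (Site d) →L[ℂ] L2 (Site d)}
    (hS : IsShift (-z) S) (V : Site d → α) (ψ : L2 (Site d)) :
    v V (S ψ) = S (v (sh z V) ψ) := by
  have h := hv.cov (-z) S hS (sh z V) ψ
  have e : sh (-z) (sh z V) = V := by
    funext y
    simp [sh]
  rwa [e] at h

omit [TopologicalSpace α] [SecondCountableTopology α] [BorelSpace α] in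
theorem gP_shift (hev : ∀ V, IsGrp c V (ev V)) (hv : Cv v) {z : Site d}
    {S : L2 (Site d) →L[ℂ] L2 (Site d)} (hS : IsShift (-z) S) (V : Site d → α) (N : ℕ) :
    gP (ev (pot p' V)) (ev (pot p V)) (v V) N (dl z) =
      S (gP (ev (pot p' (sh z V))) (ev (pot p (sh z V))) (v (sh z V)) N (dl 0)) := by
  unfold gP
  have e := ContinuousLinearMap.intervalIntegral_comp_comm S
    ((cont_gP (ev (pot p' (sh z V))) (ev (pot p (sh z V))) (v (sh z V))
      (dl 0)).intervalIntegrable (μ := volume) (0 : ℝ) (N : ℝ))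
  rw [map_smul]
  congr 1
  refine Eq.trans ?_ e
  refine intervalIntegral.integral_congr fun s _ => ?_
  show (ev (pot p' V)).U (-s) (v V ((ev (pot p V)).U s (dl z))) = _
  rw [← LIMB.shift_dl z S hS, LIMB.U_shift ev ALL.a_COV hev hS, cov_neg hv hS,
    LIMB.U_shift ev ALL.a_COV hev hS]
  rfl

omit [TopologicalSpace α] [SecondCountableTopology α] [BorelSpace α] in
theorem gM_shift (hev : ∀ V, IsGrp c V (ev V)) (hv : Cv v) {z : Site d}
    {S : L2 (Site d) →L[ℂ] L2 (Site d)} (hS : IsShift (-z) S) (V : Site d → α) (N : ℕ) :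
    gM (ev (pot p' V)) (ev (pot p V)) (v V) N (dl z) =
      S (gM (ev (pot p' (sh z V))) (ev (pot p (sh z V))) (v (sh z V)) N (dl 0)) := by
  unfold gM
  have e := ContinuousLinearMap.intervalIntegral_comp_comm S
    ((cont_gM (ev (pot p' (sh z V))) (ev (pot p (sh z V))) (v (sh z V))
      (dl 0)).intervalIntegrable (μ := volume) (0 : ℝ) (N : ℝ))
  rw [map_smul]
  congr 1
  refine Eq.trans ?_ e
  refine intervalIntegral.integral_congr fun s _ => ?_
  show (ev (pot p' V)).U s (v V ((ev (pot p V)).U (-s) (dl z))) = _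
  rw [← LIMB.shift_dl z S hS, LIMB.U_shift ev ALL.a_COV hev hS, cov_neg hv hS,
    LIMB.U_shift ev ALL.a_COV hev hS]
  rfl

lemma cont_two' (hev : ∀ V, IsGrp c V (ev V)) (hp : Continuous p) (hp' : Continuous p')
    (hc : Continuous fun q : (Site d → α) × L2 (Site d) => v q.1 q.2) (x : L2 (Site d))
    (f g : ℝ → ℝ) (hf : Continuous f) (hg : Continuous g) :
    Continuous fun q : (Site d → α) × ℝ =>
      (ev (pot p' q.1)).U (f q.2) (v q.1 ((ev (pot p q.1)).U (g q.2) x)) := by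
  have h1 : Continuous fun q : (Site d → α) × ℝ => (ev (pot p q.1)).U (g q.2) x :=
    contU hev ((cont_pot hp).comp continuous_fst) (hg.comp continuous_snd) continuous_const
  have h2 : Continuous fun q : (Site d → α) × ℝ => v q.1 ((ev (pot p q.1)).U (g q.2) x) :=
    hc.comp (continuous_fst.prodMk h1)
  exact contU hev ((cont_pot hp').comp continuous_fst) (hf.comp continuous_snd) h2

lemma cont_gPx (hev : ∀ V, IsGrp c V (ev V)) (hp : Continuous p) (hp' : Continuous p')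
    (hc : Continuous fun q : (Site d → α) × L2 (Site d) => v q.1 q.2) (N : ℕ) (x : L2 (Site d)) :
    Continuous fun V : Site d → α => gP (ev (pot p' V)) (ev (pot p V)) (v V) N x := by
  suffices key : Continuous fun V : Site d → α =>
      ∫ s in (0 : ℝ)..(N : ℝ), (ev (pot p' V)).U (-s) (v V ((ev (pot p V)).U s x)) from
    key.const_smul ((N : ℂ)⁻¹)
  exact intervalIntegral.continuous_parametric_intervalIntegral_of_continuous'
    (f := fun (V : Site d → α) (s : ℝ) =>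
      (ev (pot p' V)).U (-s) (v V ((ev (pot p V)).U s x)))
    (cont_two' hev hp hp' hc x _ _ continuous_neg continuous_id) _ _

lemma cont_gMx (hev : ∀ V, IsGrp c V (ev V)) (hp : Continuous p) (hp' : Continuous p')
    (hc : Continuous fun q : (Site d → α) × L2 (Site d) => v q.1 q.2) (N : ℕ) (x : L2 (Site d)) :
    Continuous fun V : Site d → α => gM (ev (pot p' V)) (ev (pot p V)) (v V) N x := by
  suffices key : Continuous fun V : Site d → α =>
      ∫ s in (0 : ℝ)..(N : ℝ), (ev (pot p' V)).U s (v V ((ev (pot p V)).U (-s) x)) from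
    key.const_smul ((N : ℂ)⁻¹)
  exact intervalIntegral.continuous_parametric_intervalIntegral_of_continuous'
    (f := fun (V : Site d → α) (s : ℝ) =>
      (ev (pot p' V)).U s (v V ((ev (pot p V)).U (-s) x)))
    (cont_two' hev hp hp' hc x _ _ continuous_id continuous_neg) _ _

/-- existence of the averages -/
theorem vlim (hev : ∀ V, IsGrp c V (ev V)) (hp : Continuous p) (hp' : Continuous p')
    (hv : Cv v) (hc : Continuous fun q : (Site d → α) × L2 (Site d) => v q.1 q.2)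
    (ρ : Measure α) [IsProbabilityMeasure ρ] :
    ∃ (Nk : ℕ → ℕ) (b : (Site d → α) → L2 (Site d)), Tendsto Nk atTop atTop ∧
      AEStronglyMeasurable b (Measure.infinitePi fun _ : Site d => ρ) ∧
      Tendsto (fun N : ℕ => ∫⁻ V, ‖gP (ev (pot p' V)) (ev (pot p V)) (v V) N (dl 0) - b V‖ₑ ^ 2
        ∂(Measure.infinitePi fun _ : Site d => ρ)) atTop (𝓝 0) ∧
      ∀ᵐ V ∂(Measure.infinitePi fun _ : Site d => ρ), ∃ B : L2 (Site d) →L[ℂ] L2 (Site d),
        GGood (ev (pot p' V)) (ev (pot p V)) (v V) Nk B ∧ B (dl 0) = b V := by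
  set P : Measure (Site d → α) := Measure.infinitePi fun _ : Site d => ρ with hP
  obtain ⟨R, hR⟩ := hv.bdd
  have hcT : Continuous fun q : ℝ × (Site d → α) => ta ev p' p v q.1 q.2 :=
    (cont_two' hev hp hp' hc (dl 0) _ _ continuous_neg continuous_id).comp
      (continuous_snd.prodMk continuous_fst)
  obtain ⟨b, hb, hPl, hMi⟩ := LIMA.main P (fun s V => ta ev p' p v s V) R t_ME hcT
    (fun s V => by
      unfold ta
      rw [(ev _).norm']
      refine ((v V).le_opNorm _).trans ?_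
      rw [(ev _).norm', STAT.norm_dl, mul_one]
      exact hR V) (fun s s' a => stat_v hev hp hp' hv ρ s s' a)
  have hP' : Tendsto (fun N : ℕ => ∫⁻ V, ‖gP (ev (pot p' V)) (ev (pot p V)) (v V) N (dl 0) -
      b V‖ₑ ^ 2 ∂P) atTop (𝓝 0) := hPl
  have hM' : Tendsto (fun N : ℕ => ∫⁻ V, ‖gM (ev (pot p' V)) (ev (pot p V)) (v V) N (dl 0) -
      b V‖ₑ ^ 2 ∂P) atTop (𝓝 0) := by
    have e : ∀ (V : Site d → α) (s : ℝ), ta ev p' p v (-s) V =
        (ev (pot p' V)).U s (v V ((ev (pot p V)).U (-s) (dl 0))) := by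
      intro V s
      unfold ta
      rw [neg_neg]
    simp only [e] at hMi
    exact hMi
  have hfP : ∀ N, AEMeasurable (fun V => ‖gP (ev (pot p' V)) (ev (pot p V)) (v V) N (dl 0) -
      b V‖ₑ ^ 2) P := fun N =>
    (((cont_gPx hev hp hp' hc N _).aestronglyMeasurable).sub hb).enorm.pow_const 2
  have hfM : ∀ N, AEMeasurable (fun V => ‖gM (ev (pot p' V)) (ev (pot p V)) (v V) N (dl 0) -
      b V‖ₑ ^ 2) P := fun N =>
    (((cont_gMx hev hp hp' hc N _).aestronglyMeasurable).sub hb).enorm.pow_const 2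
  have hPM := hP'.add hM'
  rw [add_zero] at hPM
  obtain ⟨Nk, hmono, hNk⟩ := extraction_forall_of_eventually
    (P := fun n k => (∫⁻ V, ‖gP (ev (pot p' V)) (ev (pot p V)) (v V) k (dl 0) - b V‖ₑ ^ 2 ∂P) +
      (∫⁻ V, ‖gM (ev (pot p' V)) (ev (pot p V)) (v V) k (dl 0) - b V‖ₑ ^ 2 ∂P) <
        (2⁻¹ : ℝ≥0∞) ^ n)
    (fun n => (tendsto_order.1 hPM).2 _ (by
      refine ENNReal.pow_pos ?_ n
      simp))
  refine ⟨Nk, b, hmono.tendsto_atTop, hb, hP', ?_⟩
  have hfS : ∀ n, AEMeasurable (fun V => ‖gP (ev (pot p' V)) (ev (pot p V)) (v V) (Nk n) (dl 0) -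
      b V‖ₑ ^ 2 + ‖gM (ev (pot p' V)) (ev (pot p V)) (v V) (Nk n) (dl 0) - b V‖ₑ ^ 2) P := fun n =>
    (hfP (Nk n)).add (hfM (Nk n))
  have hsum : ∫⁻ V, ∑' n, (‖gP (ev (pot p' V)) (ev (pot p V)) (v V) (Nk n) (dl 0) - b V‖ₑ ^ 2 +
      ‖gM (ev (pot p' V)) (ev (pot p V)) (v V) (Nk n) (dl 0) - b V‖ₑ ^ 2) ∂P ≠ ∞ := by
    rw [lintegral_tsum hfS]
    have hle : ∑' n, ∫⁻ V, (‖gP (ev (pot p' V)) (ev (pot p V)) (v V) (Nk n) (dl 0) - b V‖ₑ ^ 2 +
        ‖gM (ev (pot p' V)) (ev (pot p V)) (v V) (Nk n) (dl 0) - b V‖ₑ ^ 2) ∂P ≤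
        ∑' n : ℕ, (2⁻¹ : ℝ≥0∞) ^ n := by
      refine ENNReal.tsum_le_tsum fun n => ?_
      rw [lintegral_add_left' (hfP (Nk n))]
      exact (hNk n).le
    refine ne_top_of_le_ne_top ?_ hle
    rw [ENNReal.tsum_geometric]
    simp
  have hae := ae_lt_top' (AEMeasurable.tsum hfS) hsum
  have hG : ∀ᵐ V ∂P,
      Tendsto (fun n => gP (ev (pot p' V)) (ev (pot p V)) (v V) (Nk n) (dl 0)) atTop
        (𝓝 (b V)) ∧
      Tendsto (fun n => gM (ev (pot p' V)) (ev (pot p V)) (v V) (Nk n) (dl 0)) atTop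
        (𝓝 (b V)) := by
    filter_upwards [hae] with V hV
    have h0 := ENNReal.tendsto_atTop_zero_of_tsum_ne_top hV.ne
    constructor
    · refine LIMB.tendsto_of_enorm_sq (tendsto_of_tendsto_of_tendsto_of_le_of_le
        tendsto_const_nhds h0 (fun _ => zero_le) fun n => ?_)
      exact le_self_add
    · refine LIMB.tendsto_of_enorm_sq (tendsto_of_tendsto_of_tendsto_of_le_of_le
        tendsto_const_nhds h0 (fun _ => zero_le) fun n => ?_)
      exact le_add_self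
  have hGz : ∀ᵐ V ∂P, ∀ z : Site d,
      Tendsto (fun n => gP (ev (pot p' (sh z V))) (ev (pot p (sh z V))) (v (sh z V)) (Nk n)
        (dl 0)) atTop (𝓝 (b (sh z V))) ∧
      Tendsto (fun n => gM (ev (pot p' (sh z V))) (ev (pot p (sh z V))) (v (sh z V)) (Nk n)
        (dl 0)) atTop (𝓝 (b (sh z V))) := by
    rw [ae_all_iff]
    intro z
    exact (mp_sh (d := d) ρ z).quasiMeasurePreserving.ae hG
  filter_upwards [hGz] with V hV
  obtain ⟨B, hB⟩ := LIMB.ext_lim (fun k => GPL (ev (pot p' V)) (ev (pot p V)) (v V) (Nk k))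
    (fun k => GML (ev (pot p' V)) (ev (pot p V)) (v V) (Nk k)) ‖v V‖ (norm_nonneg _)
    (fun k x => norm_gP _ _ _ _ _)
    (fun k x => norm_gM _ _ _ _ _)
    (Site d) dl (LIMB.dl_dense d) (fun z => by
      obtain ⟨S, hS⟩ := (t_OPS d).1 (-z)
      refine ⟨S (b (sh z V)), ?_, ?_⟩
      · have := (S.continuous.tendsto _).comp (hV z).1
        refine this.congr fun k => ?_
        show _ = gP (ev (pot p' V)) (ev (pot p V)) (v V) (Nk k) (dl z)
        rw [gP_shift hev hv hS]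
        rfl
      · have := (S.continuous.tendsto _).comp (hV z).2
        refine this.congr fun k => ?_
        show _ = gM (ev (pot p' V)) (ev (pot p V)) (v V) (Nk k) (dl z)
        rw [gM_shift hev hv hS]
        rfl)
  refine ⟨B, hB, ?_⟩
  have h0 := (hV 0).1
  have e0 : sh 0 V = V := by
    funext y
    simp [sh]
  rw [e0] at h0
  exact tendsto_nhds_unique (hB (dl 0)).1 h0

lemma avg_const {X : Type} [NormedAddCommGroup X] [InnerProductSpace ℂ X] [CompleteSpace X]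
    (x : X) (N : ℕ) (hN : 0 < N) : ((N : ℂ)⁻¹) • ∫ _s in (0 : ℝ)..(N : ℝ), x = x := by
  have hNc : (N : ℂ) ≠ 0 := by exact_mod_cast hN.ne'
  rw [intervalIntegral.integral_const, sub_zero]
  have e3 : (N : ℝ) • x = (N : ℂ) • x := by
    rw [← Complex.coe_smul]
    norm_cast
  rw [e3, smul_smul, inv_mul_cancel₀ hNc, one_smul]

/-- Jensen's inequality for the averages -/
lemma jens {X : Type} [NormedAddCommGroup X] [InnerProductSpace ℂ X] (f : ℝ → X)
    (hf : Continuous f) (N : ℕ) (hN : 0 < N) :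
    ‖((N : ℂ)⁻¹) • ∫ s in (0 : ℝ)..(N : ℝ), f s‖ₑ ^ 2 ≤
      (N : ℝ≥0∞)⁻¹ * ∫⁻ s in Set.Ioc (0 : ℝ) (N : ℝ), ‖f s‖ₑ ^ 2 := by
  have hN0 : (N : ℝ≥0∞) ≠ 0 := by exact_mod_cast hN.ne'
  have hNt : (N : ℝ≥0∞) ≠ ∞ := ENNReal.natCast_ne_top _
  have h1 : ‖∫ s in (0 : ℝ)..(N : ℝ), f s‖ₑ ^ 2 ≤
      (N : ℝ≥0∞) * ∫⁻ s in Set.Ioc (0 : ℝ) (N : ℝ), ‖f s‖ₑ ^ 2 := by
    rw [intervalIntegral.integral_of_le (by positivity)]
    have h2 : ‖∫ s in Set.Ioc (0 : ℝ) (N : ℝ), f s‖ₑ ≤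
        eLpNorm f 2 (volume.restrict (Set.Ioc (0 : ℝ) (N : ℝ))) *
        eLpNorm (fun _ : ℝ => (1 : ℝ)) 2 (volume.restrict (Set.Ioc (0 : ℝ) (N : ℝ))) := by
      refine (enorm_integral_le_lintegral_enorm _).trans ?_
      have h3 := cs (volume.restrict (Set.Ioc (0 : ℝ) (N : ℝ))) f (fun _ : ℝ => (1 : ℝ))
        hf.aestronglyMeasurable.restrict aestronglyMeasurable_const
      simpa using h3
    calc _ ≤ (eLpNorm f 2 (volume.restrict (Set.Ioc (0 : ℝ) (N : ℝ))) *
        eLpNorm (fun _ : ℝ => (1 : ℝ)) 2 (volume.restrict (Set.Ioc (0 : ℝ) (N : ℝ)))) ^ 2 := by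
          gcongr
      _ = _ := by
          rw [mul_pow, n2_sq, n2_sq, mul_comm]
          congr 1
          simp
  rw [enorm_smul, mul_pow]
  have h4 : ‖((N : ℂ)⁻¹)‖ₑ = (N : ℝ≥0∞)⁻¹ := by
    rw [← ofReal_norm, norm_inv, Complex.norm_natCast, ENNReal.ofReal_inv_of_pos (by positivity),
      ENNReal.ofReal_natCast]
  rw [h4]
  calc ((N : ℝ≥0∞)⁻¹) ^ 2 * ‖∫ s in (0 : ℝ)..(N : ℝ), f s‖ₑ ^ 2 ≤
      ((N : ℝ≥0∞)⁻¹) ^ 2 * ((N : ℝ≥0∞) * ∫⁻ s in Set.Ioc (0 : ℝ) (N : ℝ), ‖f s‖ₑ ^ 2) := by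
        gcongr
    _ = (N : ℝ≥0∞)⁻¹ * (((N : ℝ≥0∞)⁻¹ * (N : ℝ≥0∞)) *
        ∫⁻ s in Set.Ioc (0 : ℝ) (N : ℝ), ‖f s‖ₑ ^ 2) := by ring
    _ = _ := by rw [ENNReal.inv_mul_cancel hN0 hNt, one_mul]

/-- comparison of an exact intertwiner with the averages of an approximation -/
theorem approx_le (hev : ∀ V, IsGrp c V (ev V)) (hp : Continuous p) (hp' : Continuous p')
    {X : (Site d → α) → L2 (Site d) →L[ℂ] L2 (Site d)} (hX : Cv X)
    (hv : Cv v) (hc : Continuous fun q : (Site d → α) × L2 (Site d) => v q.1 q.2)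
    (ρ : Measure α) [IsProbabilityMeasure ρ]
    (hint : ∀ᵐ V ∂(Measure.infinitePi fun _ : Site d => ρ), ∀ (t : ℝ) (x : L2 (Site d)),
      X V ((ev (pot p V)).U t x) = (ev (pot p' V)).U t (X V x)) (N : ℕ) (hN : 0 < N) :
    ∫⁻ V, ‖X V (dl 0) - gP (ev (pot p' V)) (ev (pot p V)) (v V) N (dl 0)‖ₑ ^ 2
        ∂(Measure.infinitePi fun _ : Site d => ρ) ≤
      ∫⁻ V, ‖X V (dl 0) - v V (dl 0)‖ₑ ^ 2 ∂(Measure.infinitePi fun _ : Site d => ρ) := by
  set P : Measure (Site d → α) := Measure.infinitePi fun _ : Site d => ρ with hP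
  set D : (Site d → α) → L2 (Site d) →L[ℂ] L2 (Site d) := fun V => X V - v V with hD
  have hDc : Cv D := hX.sub hv
  have hN0 : (N : ℝ≥0∞) ≠ 0 := by exact_mod_cast hN.ne'
  have hNt : (N : ℝ≥0∞) ≠ ∞ := ENNReal.natCast_ne_top _
  have hNc : (N : ℂ) ≠ 0 := by exact_mod_cast hN.ne'
  -- joint measurability
  have hjm : StronglyMeasurable (Function.uncurry fun (s : ℝ) (V : Site d → α) =>
      D V ((ev (pot p V)).U s (dl 0))) := by
    refine stronglyMeasurable_uncurry_of_continuous_of_stronglyMeasurable (fun V => ?_)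
      (fun s => ?_)
    · exact (D V).continuous.comp ((ev (pot p V)).cont' _)
    · exact hDc.sm_apply (contU hev (cont_pot hp) continuous_const
        continuous_const).stronglyMeasurable
  have hpt : ∀ᵐ V ∂P, ‖X V (dl 0) - gP (ev (pot p' V)) (ev (pot p V)) (v V) N (dl 0)‖ₑ ^ 2 ≤
      (N : ℝ≥0∞)⁻¹ * ∫⁻ s in Set.Ioc (0 : ℝ) (N : ℝ), ‖D V ((ev (pot p V)).U s (dl 0))‖ₑ ^ 2 := by
    filter_upwards [hint] with V hV
    have e1 : X V (dl 0) = gP (ev (pot p' V)) (ev (pot p V)) (X V) N (dl 0) := by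
      unfold gP
      have e2 : ∀ s : ℝ, (ev (pot p' V)).U (-s) (X V ((ev (pot p V)).U s (dl 0))) =
          X V (dl 0) := by
        intro s
        rw [hV, ← (ev (pot p' V)).add', neg_add_cancel, (ev (pot p' V)).zero']
      simp only [e2]
      exact (avg_const _ N hN).symm
    have e4 : X V (dl 0) - gP (ev (pot p' V)) (ev (pot p V)) (v V) N (dl 0) =
        ((N : ℂ)⁻¹) • ∫ s in (0 : ℝ)..(N : ℝ),
          (ev (pot p' V)).U (-s) (D V ((ev (pot p V)).U s (dl 0))) := by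
      conv_lhs => rw [e1]
      unfold gP
      rw [← smul_sub, ← intervalIntegral.integral_sub
        ((cont_gP _ _ _ _).intervalIntegrable _ _) ((cont_gP _ _ _ _).intervalIntegrable _ _)]
      congr 1
      refine intervalIntegral.integral_congr fun s _ => ?_
      simp only [hD]
      rw [_root_.sub_apply, map_sub]
    rw [e4]
    refine (jens _ (cont_gP _ _ _ _) N hN).trans (le_of_eq ?_)
    congr 1
    refine lintegral_congr fun s => ?_
    rw [← ofReal_norm, ← ofReal_norm, (ev _).norm']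
  refine (lintegral_mono_ae hpt).trans ?_
  have hm2 : Measurable fun q : (Site d → α) × ℝ =>
      ‖D q.1 ((ev (pot p q.1)).U q.2 (dl 0))‖ₑ ^ 2 := by
    have := hjm.comp_measurable (measurable_swap : Measurable (Prod.swap :
      (Site d → α) × ℝ → ℝ × (Site d → α)))
    exact this.enorm.pow_const 2
  rw [lintegral_const_mul _ (hm2.lintegral_prod_right' (ν := volume.restrict
    (Set.Ioc (0 : ℝ) (N : ℝ)))), lintegral_lintegral_swap hm2.aemeasurable]
  have hs : ∀ y : ℝ, ∫⁻ x, ‖D x ((ev (pot p x)).U y (dl 0))‖ₑ ^ 2 ∂P =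
      ∫⁻ V, ‖D V (dl 0)‖ₑ ^ 2 ∂P := fun y => sq_U hev hp hDc ρ y
  simp only [hs]
  rw [lintegral_const, Measure.restrict_apply_univ, Real.volume_Ioc, sub_zero,
    ENNReal.ofReal_natCast, mul_comm (∫⁻ V, ‖D V (dl 0)‖ₑ ^ 2 ∂P), ← mul_assoc,
    ENNReal.inv_mul_cancel hN0 hNt, one_mul]
  refine le_of_eq (lintegral_congr fun V => ?_)
  simp only [hD]
  rw [_root_.sub_apply]

end Pool.Agent.Helper26.Cm
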