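import Pool.Agent.Helper26.Nb.Disj

/-! # Two-sided time averages of a general bounded operator -/

set_option autoImplicit false

open MeasureTheory Filter Topology ProbabilityTheory
open scoped BigOperators ENNReal NNReal InnerProductSpace ComplexConjugate

namespace Pool.Agent.Helper26.Cm

open Pool.Agent.H5R2.NB Pool.Agent.Helper26.Nb

section avg

variable {X : Type} [NormedAddCommGroup X] [InnerProductSpace ℂ X]

/-- forward average of `U'(-s) v U(s)` -/
noncomputable def gP (W' W : UG X) (v : X →L[ℂ] X) (N : ℕ) (x : X) : X :=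
  ((N : ℂ)⁻¹) • ∫ s in (0 : ℝ)..(N : ℝ), W'.U (-s) (v (W.U s x))

/-- backward average -/
noncomputable def gM (W' W : UG X) (v : X →L[ℂ] X) (N : ℕ) (x : X) : X :=
  ((N : ℂ)⁻¹) • ∫ s in (0 : ℝ)..(N : ℝ), W'.U s (v (W.U (-s) x))

/-- both averages converge strongly to `B` along `Nk` -/
def GGood (W' W : UG X) (v : X →L[ℂ] X) (Nk : ℕ → ℕ) (B : X →L[ℂ] X) : Prop :=
  ∀ x, Tendsto (fun k => gP W' W v (Nk k) x) atTop (𝓝 (B x)) ∧
    Tendsto (fun k => gM W' W v (Nk k) x) atTop (𝓝 (B x))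

theorem cont_g (W' W : UG X) (v : X →L[ℂ] X) (x : X)
    (f g : ℝ → ℝ) (hf : Continuous f) (hg : Continuous g) :
    Continuous fun s : ℝ => W'.U (f s) (v (W.U (g s) x)) :=
  LIMB.cont_U W' _ (v.continuous.comp ((W.cont' x).comp hg)) _ hf

theorem cont_gP (W' W : UG X) (v : X →L[ℂ] X) (x : X) :
    Continuous fun s : ℝ => W'.U (-s) (v (W.U s x)) :=
  cont_g W' W v x _ _ continuous_neg continuous_id

theorem cont_gM (W' W : UG X) (v : X →L[ℂ] X) (x : X) :
    Continuous fun s : ℝ => W'.U s (v (W.U (-s) x)) :=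
  cont_g W' W v x _ _ continuous_id continuous_neg

theorem norm_g (W' W : UG X) (v : X →L[ℂ] X) (x : X) (s t : ℝ) :
    ‖W'.U t (v (W.U s x))‖ ≤ ‖v‖ * ‖x‖ := by
  rw [W'.norm']
  refine (v.le_opNorm _).trans ?_
  rw [W.norm']

theorem norm_gP (W' W : UG X) (v : X →L[ℂ] X) (N : ℕ) (x : X) : ‖gP W' W v N x‖ ≤ ‖v‖ * ‖x‖ :=
  LIMB.norm_avg _ _ (fun _ => norm_g W' W v x _ _) N

theorem norm_gM (W' W : UG X) (v : X →L[ℂ] X) (N : ℕ) (x : X) : ‖gM W' W v N x‖ ≤ ‖v‖ * ‖x‖ :=
  LIMB.norm_avg _ _ (fun _ => norm_g W' W v x _ _) N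

/-- the forward average as a bounded operator -/
noncomputable def GPL (W' W : UG X) (v : X →L[ℂ] X) (N : ℕ) : X →L[ℂ] X :=
  LinearMap.mkContinuous
    { toFun := gP W' W v N
      map_add' := fun x y => by
        unfold gP
        rw [← smul_add, ← intervalIntegral.integral_add
          ((cont_gP W' W v x).intervalIntegrable _ _) ((cont_gP W' W v y).intervalIntegrable _ _)]
        simp only [map_add]
      map_smul' := fun a x => by
        unfold gP
        simp only [map_smul, intervalIntegral.integral_smul, RingHom.id_apply]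
        rw [smul_comm] } ‖v‖
    fun x => norm_gP W' W v N x

/-- the backward average as a bounded operator -/
noncomputable def GML (W' W : UG X) (v : X →L[ℂ] X) (N : ℕ) : X →L[ℂ] X :=
  LinearMap.mkContinuous
    { toFun := gM W' W v N
      map_add' := fun x y => by
        unfold gM
        rw [← smul_add, ← intervalIntegral.integral_add
          ((cont_gM W' W v x).intervalIntegrable _ _) ((cont_gM W' W v y).intervalIntegrable _ _)]
        simp only [map_add]
      map_smul' := fun a x => by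
        unfold gM
        simp only [map_smul, intervalIntegral.integral_smul, RingHom.id_apply]
        rw [smul_comm] } ‖v‖
    fun x => norm_gM W' W v N x

theorem gP_vadd (W' W : UG X) (v w : X →L[ℂ] X) (N : ℕ) (x : X) :
    gP W' W (v + w) N x = gP W' W v N x + gP W' W w N x := by
  unfold gP
  rw [← smul_add, ← intervalIntegral.integral_add
    ((cont_gP W' W v x).intervalIntegrable _ _) ((cont_gP W' W w x).intervalIntegrable _ _)]
  simp only [_root_.add_apply, map_add]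

theorem gM_vadd (W' W : UG X) (v w : X →L[ℂ] X) (N : ℕ) (x : X) :
    gM W' W (v + w) N x = gM W' W v N x + gM W' W w N x := by
  unfold gM
  rw [← smul_add, ← intervalIntegral.integral_add
    ((cont_gM W' W v x).intervalIntegrable _ _) ((cont_gM W' W w x).intervalIntegrable _ _)]
  simp only [_root_.add_apply, map_add]

theorem GGood.add {W' W : UG X} {v w : X →L[ℂ] X} {Nk : ℕ → ℕ} {B B' : X →L[ℂ] X}
    (h : GGood W' W v Nk B) (h' : GGood W' W w Nk B') : GGood W' W (v + w) Nk (B + B') := by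
  intro x
  constructor
  · simp only [gP_vadd]
    exact (h x).1.add (h' x).1
  · simp only [gM_vadd]
    exact (h x).2.add (h' x).2

theorem GGood.norm_le {W' W : UG X} {v : X →L[ℂ] X} {Nk : ℕ → ℕ} {B : X →L[ℂ] X}
    (h : GGood W' W v Nk B) (x : X) : ‖B x‖ ≤ ‖v‖ * ‖x‖ :=
  le_of_tendsto (h x).1.norm (Eventually.of_forall fun _ => norm_gP W' W v _ x)

end avg

/-- the fixed group `W'` against a rank one family -/
theorem gzero {ι : Type} [Countable ι] (W' : UG (L2 ι)) (U : ℝ → UG (L2 ι)) (e : L2 ι)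
    (h : Fam U e) (ν : Measure ℝ) [IsProbabilityMeasure ν] (C : ℝ≥0) (hν : ν ≤ C • volume)
    (v₀ : L2 ι →L[ℂ] L2 ι)
    (Nk : ℕ → ℕ) (hNk : Tendsto Nk atTop atTop) (B : ℝ → L2 ι →L[ℂ] L2 ι)
    (hB : ∀ᵐ κ ∂ν, GGood W' (U κ) v₀ Nk (B κ)) : ∀ᵐ κ ∂ν, B κ e = 0 := by
  have hfam := fam_dsum (ι := ι) W' U e h
  let v : L2 (ι ⊕ ι) →L[ℂ] L2 (ι ⊕ ι) := (e1.comp v₀).comp r2
  have hP : ∀ κ N (x : L2 (ι ⊕ ι)), avP (dsum W' (U κ)) v N x =
      e1 (gP W' (U κ) v₀ N (r2 x)) := by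
    intro κ N x
    unfold avP gP
    rw [map_smul]
    congr 1
    have e := ContinuousLinearMap.intervalIntegral_comp_comm (e1 (ι := ι) (ι' := ι))
      ((cont_gP W' (U κ) v₀ (r2 x)).intervalIntegrable (μ := volume) (0 : ℝ) (N : ℝ))
    refine Eq.trans ?_ e
    refine intervalIntegral.integral_congr fun s _ => ?_
    show (dsum W' (U κ)).U (-s) (e1 (v₀ (r2 ((dsum W' (U κ)).U s x)))) = _
    rw [dsum_e1, r2_dsum]
  have hM : ∀ κ N (x : L2 (ι ⊕ ι)), avM (dsum W' (U κ)) v N x =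
      e1 (gM W' (U κ) v₀ N (r2 x)) := by
    intro κ N x
    unfold avM gM
    rw [map_smul]
    congr 1
    have e := ContinuousLinearMap.intervalIntegral_comp_comm (e1 (ι := ι) (ι' := ι))
      ((cont_gM W' (U κ) v₀ (r2 x)).intervalIntegrable (μ := volume) (0 : ℝ) (N : ℝ))
    refine Eq.trans ?_ e
    refine intervalIntegral.integral_congr fun s _ => ?_
    show (dsum W' (U κ)).U s (e1 (v₀ (r2 ((dsum W' (U κ)).U (-s) x)))) = _
    rw [dsum_e1, r2_dsum]
  have hG : ∀ᵐ κ ∂ν, Good (dsum W' (U κ)) v Nk ((e1.comp (B κ)).comp r2) := by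
    filter_upwards [hB] with κ hκ x
    constructor
    · simp only [hP]
      exact (e1.continuous.tendsto _).comp (hκ (r2 x)).1
    · simp only [hM]
      exact (e1.continuous.tendsto _).comp (hκ (r2 x)).2
  have hpr := ALL.a_PROPR (ι ⊕ ι) (fun κ => dsum W' (U κ)) (e2 e) hfam ν C hν v Nk hNk
    (fun κ => (e1.comp (B κ)).comp r2) hG
  filter_upwards [hpr] with κ hκ
  have h1 := hκ (e1 (B κ e)) (by
    intro t
    rw [dsum_e2, inner_ex]
    rw [show re Sum.inl Sum.inl_injective (e2 (ι := ι) ((U 0).U t e)) = 0 from r1_e2 _]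
    exact inner_zero_right _)
  simp only [ContinuousLinearMap.comp_apply, r2_e2] at h1
  rw [inner_ex] at h1
  rw [show re Sum.inl Sum.inl_injective (e1 (ι' := ι) (B κ e)) = B κ e from r1_e1 _] at h1
  exact inner_self_eq_zero.1 h1

/-! ### finite rank operators -/

section hs

variable {ι : Type}

lemma tens_mem (a b : L2 ι) : Memℓp (fun p : ι × ι => a p.1 * conj (b p.2)) 2 := by
  rw [mem2]
  have h1 := (summ a).mul_of_nonneg (summ b) (fun _ => by positivity) (fun _ => by positivity)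
  refine h1.congr fun p => ?_
  rw [norm_mul, RCLike.norm_conj, mul_pow]

/-- `a ⊗ conj b` -/
noncomputable def tens (a b : L2 ι) : L2 (ι × ι) := ⟨fun p => a p.1 * conj (b p.2), tens_mem a b⟩

lemma tens_apply (a b : L2 ι) (p : ι × ι) : (tens a b) p = a p.1 * conj (b p.2) := rfl

lemma inner_tens (a b a' b' : L2 ι) : ⟪tens a b, tens a' b'⟫_ℂ = ⟪a, a'⟫_ℂ * ⟪b', b⟫_ℂ := by
  rw [lp.inner_eq_tsum, lp.inner_eq_tsum, lp.inner_eq_tsum]
  have s1 : Summable fun i => ‖⟪a i, a' i⟫_ℂ‖ := by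
    have := (lp.summable_inner (𝕜 := ℂ) a a').norm
    exact this
  have s2 : Summable fun i => ‖⟪b' i, b i⟫_ℂ‖ := (lp.summable_inner (𝕜 := ℂ) b' b).norm
  rw [tsum_mul_tsum_of_summable_norm s1 s2]
  refine tsum_congr fun p => ?_
  rw [tens_apply, tens_apply]
  simp only [RCLike.inner_apply, map_mul, Complex.conj_conj]
  ring

lemma tens_sub_left (a a' b : L2 ι) : tens (a - a') b = tens a b - tens a' b := by
  ext p
  rw [lp.coeFn_sub, Pi.sub_apply, tens_apply, tens_apply, tens_apply, lp.coeFn_sub, Pi.sub_apply,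
    sub_mul]

lemma tens_sub_right (a b b' : L2 ι) : tens a (b - b') = tens a b - tens a b' := by
  ext p
  rw [lp.coeFn_sub, Pi.sub_apply, tens_apply, tens_apply, tens_apply, lp.coeFn_sub, Pi.sub_apply,
    map_sub, mul_sub]

lemma norm_tens (a b : L2 ι) : ‖tens a b‖ = ‖a‖ * ‖b‖ := by
  have h1 : ((‖tens a b‖ ^ 2 : ℝ) : ℂ) = (((‖a‖ * ‖b‖) ^ 2 : ℝ) : ℂ) := by
    have h2 := inner_self_eq_norm_sq_to_K (𝕜 := ℂ) (tens a b)
    have h3 := inner_self_eq_norm_sq_to_K (𝕜 := ℂ) a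
    have h4 := inner_self_eq_norm_sq_to_K (𝕜 := ℂ) b
    rw [inner_tens, h3, h4] at h2
    rw [mul_pow]
    push_cast
    exact h2.symm
  have h5 : ‖tens a b‖ ^ 2 = (‖a‖ * ‖b‖) ^ 2 := by exact_mod_cast h1
  exact (pow_left_inj₀ (norm_nonneg _) (by positivity) (by norm_num)).1 h5

lemma cont_tens {Y : Type} [TopologicalSpace Y] {f g : Y → L2 ι} (hf : Continuous f)
    (hg : Continuous g) : Continuous fun y => tens (f y) (g y) := by
  rw [continuous_iff_continuousAt]
  intro y₀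
  rw [ContinuousAt, tendsto_iff_norm_sub_tendsto_zero]
  have h1 : ∀ y, ‖tens (f y) (g y) - tens (f y₀) (g y₀)‖ ≤
      ‖f y - f y₀‖ * ‖g y‖ + ‖f y₀‖ * ‖g y - g y₀‖ := by
    intro y
    have e : tens (f y) (g y) - tens (f y₀) (g y₀) =
        tens (f y - f y₀) (g y) + tens (f y₀) (g y - g y₀) := by
      rw [tens_sub_left, tens_sub_right]
      abel
    rw [e]
    refine (norm_add_le _ _).trans ?_
    rw [norm_tens, norm_tens]
  refine squeeze_zero (fun _ => norm_nonneg _) h1 ?_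
  have h2 : Continuous fun y => ‖f y - f y₀‖ * ‖g y‖ + ‖f y₀‖ * ‖g y - g y₀‖ := by
    fun_prop
  have h3 := h2.tendsto y₀
  simpa using h3

/-- rank one operator `x ↦ ⟨b, x⟩ a` -/
noncomputable def rk (a b : L2 ι) : L2 ι →L[ℂ] L2 ι :=
  (ContinuousLinearMap.toSpanSingleton ℂ a).comp (innerSL ℂ b)

lemma rk_apply (a b x : L2 ι) : rk a b x = ⟪b, x⟫_ℂ • a := by
  unfold rk
  simp

theorem rk_good (W' W : UG (L2 ι)) (a b : L2 ι) (Nk : ℕ → ℕ) (hNk : Tendsto Nk atTop atTop) :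
    ∃ B, GGood W' W (rk a b) Nk B := by
  set T : ℝ → L2 (ι × ι) := fun s => tens (W'.U (-s) a) (W.U (-s) b) with hT
  have adj : ∀ (W : UG (L2 ι)) (t : ℝ) (x y : L2 ι), ⟪W.U t x, W.U t y⟫_ℂ = ⟪x, y⟫_ℂ :=
    fun W t x y => STAT.inner_UG W t x y
  have cT : Continuous T := cont_tens ((W'.cont' a).comp continuous_neg)
    ((W.cont' b).comp continuous_neg)
  have stT : ∀ s s' r : ℝ, ⟪T (s + r), T (s' + r)⟫_ℂ = ⟪T s, T s'⟫_ℂ := by
    intro s s' r
    have e : ∀ (W : UG (L2 ι)) (t : ℝ) (x : L2 ι), W.U (-(t + r)) x = W.U (-r) (W.U (-t) x) := by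
      intro W t x
      rw [neg_add_rev, W.add']
    simp only [hT]
    rw [inner_tens, inner_tens, e, e, e, e, adj, adj]
  obtain ⟨y, -, h1, h2⟩ := LIMA.main (Measure.dirac ()) (fun s (_ : Unit) => T s) (‖a‖ * ‖b‖) t_ME
    (cT.comp continuous_fst) (fun s _ => by rw [hT]; simp only; rw [norm_tens, W'.norm', W.norm'])
    (fun s s' r => by simp only [stT])
  simp only [lintegral_dirac] at h1 h2
  have k1 : Tendsto (fun N : ℕ => ((N : ℂ)⁻¹) • (∫ s in (0 : ℝ)..(N : ℝ), T s)) atTop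
      (𝓝 (y ())) := LIMB.tendsto_of_enorm_sq h1
  have k2 : Tendsto (fun N : ℕ => ((N : ℂ)⁻¹) • (∫ s in (0 : ℝ)..(N : ℝ), T (-s))) atTop
      (𝓝 (y ())) := LIMB.tendsto_of_enorm_sq h2
  -- the averages are contractions of the averages of `T`
  have ct : ∀ (x z : L2 ι) (s : ℝ), ⟪z, W'.U (-s) (rk a b (W.U s x))⟫_ℂ = ⟪tens z x, T s⟫_ℂ := by
    intro x z s
    simp only [hT]
    rw [inner_tens, rk_apply, map_smul, inner_smul_right, mul_comm]
    congr 1
    rw [STAT.inner_adj W s]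
  have cP : ∀ (x z : L2 ι) (N : ℕ), ⟪z, gP W' W (rk a b) N x⟫_ℂ =
      ⟪tens z x, ((N : ℂ)⁻¹) • (∫ s in (0 : ℝ)..(N : ℝ), T s)⟫_ℂ := by
    intro x z N
    unfold gP
    rw [inner_smul_right, inner_smul_right]
    congr 1
    have e1 := ContinuousLinearMap.intervalIntegral_comp_comm (innerSL ℂ z)
      ((cont_gP W' W (rk a b) x).intervalIntegrable (μ := volume) (0 : ℝ) (N : ℝ))
    have e2 := ContinuousLinearMap.intervalIntegral_comp_comm (innerSL ℂ (tens z x))
      (cT.intervalIntegrable (μ := volume) (0 : ℝ) (N : ℝ))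
    simp only [innerSL_apply_apply] at e1 e2
    exact e1.symm.trans ((intervalIntegral.integral_congr fun s _ => ct x z s).trans e2)
  have cM : ∀ (x z : L2 ι) (N : ℕ), ⟪z, gM W' W (rk a b) N x⟫_ℂ =
      ⟪tens z x, ((N : ℂ)⁻¹) • (∫ s in (0 : ℝ)..(N : ℝ), T (-s))⟫_ℂ := by
    intro x z N
    unfold gM
    rw [inner_smul_right, inner_smul_right]
    congr 1
    have e1 := ContinuousLinearMap.intervalIntegral_comp_comm (innerSL ℂ z)
      ((cont_gM W' W (rk a b) x).intervalIntegrable (μ := volume) (0 : ℝ) (N : ℝ))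
    have e2 := ContinuousLinearMap.intervalIntegral_comp_comm (innerSL ℂ (tens z x))
      ((cT.comp continuous_neg).intervalIntegrable (μ := volume) (0 : ℝ) (N : ℝ))
    simp only [innerSL_apply_apply] at e1 e2
    refine e1.symm.trans (Eq.trans ?_ e2)
    refine intervalIntegral.integral_congr fun s _ => ?_
    have := ct x z (-s)
    rw [neg_neg] at this
    exact this
  -- a general comparison
  have cmp : ∀ (x p q : L2 ι) (P Q : L2 (ι × ι)), (∀ z, ⟪z, p⟫_ℂ = ⟪tens z x, P⟫_ℂ) →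
      (∀ z, ⟪z, q⟫_ℂ = ⟪tens z x, Q⟫_ℂ) → ‖p - q‖ ≤ ‖x‖ * ‖P - Q‖ := by
    intro x p q P Q hp hq
    have h3 : ⟪p - q, p - q⟫_ℂ = ⟪tens (p - q) x, P - Q⟫_ℂ := by
      rw [inner_sub_right, hp, hq, inner_sub_right]
    have h4 : ‖p - q‖ * ‖p - q‖ ≤ ‖p - q‖ * (‖x‖ * ‖P - Q‖) := by
      have h5 : ‖p - q‖ * ‖p - q‖ = ‖⟪p - q, p - q⟫_ℂ‖ := by
        rw [inner_self_eq_norm_sq_to_K, norm_pow]
        simp [sq]
      rw [h5, h3]
      refine (norm_inner_le_norm _ _).trans ?_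
      rw [norm_tens, mul_assoc]
    rcases eq_or_lt_of_le (norm_nonneg (p - q)) with h0 | h0
    · rw [← h0]
      positivity
    · exact le_of_mul_le_mul_left h4 h0
  have conv : ∀ x : L2 ι, ∃ y, Tendsto (fun k => GPL W' W (rk a b) (Nk k) x) atTop (𝓝 y) ∧
      Tendsto (fun k => GML W' W (rk a b) (Nk k) x) atTop (𝓝 y) := by
    intro x
    have hC : CauchySeq fun k => gP W' W (rk a b) (Nk k) x := by
      have hC1 := (k1.comp hNk).cauchySeq
      rw [Metric.cauchySeq_iff'] at hC1 ⊢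
      intro ε hε
      obtain ⟨n₀, hn₀⟩ := hC1 (ε / (‖x‖ + 1)) (by positivity)
      refine ⟨n₀, fun n hn => ?_⟩
      rw [dist_eq_norm]
      have h6 := hn₀ n hn
      rw [dist_eq_norm] at h6
      have h7 := cmp x _ _ _ _ (fun z => cP x z (Nk n)) (fun z => cP x z (Nk n₀))
      calc _ ≤ ‖x‖ * _ := h7
        _ ≤ (‖x‖ + 1) * _ := by gcongr; linarith
        _ < (‖x‖ + 1) * (ε / (‖x‖ + 1)) := by gcongr; exact h6
        _ = ε := by field_simp
    obtain ⟨y', hy'⟩ := cauchySeq_tendsto_of_complete hC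
    refine ⟨y', hy', ?_⟩
    have h8 : Tendsto (fun k => gP W' W (rk a b) (Nk k) x - gM W' W (rk a b) (Nk k) x) atTop
        (𝓝 0) := by
      rw [tendsto_zero_iff_norm_tendsto_zero]
      have h9 : Tendsto (fun k => ‖x‖ * ‖((Nk k : ℂ)⁻¹) • (∫ s in (0 : ℝ)..(Nk k : ℝ), T s) -
          ((Nk k : ℂ)⁻¹) • (∫ s in (0 : ℝ)..(Nk k : ℝ), T (-s))‖) atTop (𝓝 0) := by
        have := (((k1.comp hNk).sub (k2.comp hNk)).norm).const_mul ‖x‖
        rw [sub_self, norm_zero, mul_zero] at this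
        exact this
      refine squeeze_zero (fun _ => norm_nonneg _) (fun k => ?_) h9
      exact cmp x _ _ _ _ (fun z => cP x z (Nk k)) (fun z => cM x z (Nk k))
    have h10 := hy'.sub h8
    rw [sub_zero] at h10
    refine h10.congr fun k => ?_
    show _ = gM W' W (rk a b) (Nk k) x
    abel
  obtain ⟨B, hB⟩ := LIMB.ext_lim (fun k => GPL W' W (rk a b) (Nk k))
    (fun k => GML W' W (rk a b) (Nk k)) ‖rk a b‖ (norm_nonneg _)
    (fun k x => norm_gP _ _ _ _ _) (fun k x => norm_gM _ _ _ _ _) (L2 ι) id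
    (fun x => subset_closure (Submodule.subset_span ⟨x, rfl⟩)) conv
  exact ⟨B, hB⟩

/-- finite rank operators -/
def FR (F : L2 ι →L[ℂ] L2 ι) : Prop :=
  ∃ (J : Type) (s : Finset J) (a b : J → L2 ι), F = ∑ j ∈ s, rk (a j) (b j)

theorem fr_good (W' W : UG (L2 ι)) (F : L2 ι →L[ℂ] L2 ι) (hF : FR F) (Nk : ℕ → ℕ)
    (hNk : Tendsto Nk atTop atTop) : ∃ B, GGood W' W F Nk B := by
  classical
  obtain ⟨J, s, a, b, rfl⟩ := hF
  induction s using Finset.induction_on with
  | empty =>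
    refine ⟨0, fun x => ?_⟩
    constructor
    · have : ∀ k, gP W' W (∑ j ∈ (∅ : Finset J), rk (a j) (b j)) (Nk k) x = 0 := by
        intro k
        unfold gP
        simp
      simp only [this]
      exact tendsto_const_nhds
    · have : ∀ k, gM W' W (∑ j ∈ (∅ : Finset J), rk (a j) (b j)) (Nk k) x = 0 := by
        intro k
        unfold gM
        simp
      simp only [this]
      exact tendsto_const_nhds
  | insert j s hj ih =>
    obtain ⟨B, hB⟩ := ih
    obtain ⟨B', hB'⟩ := rk_good W' W (a j) (b j) Nk hNk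
    refine ⟨B' + B, ?_⟩
    rw [Finset.sum_insert hj]
    exact hB'.add hB

end hs

end Pool.Agent.Helper26.Cm
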