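import Pool.Agent.Helper26.Cm.Gen

/-! # Observables which depend on the resampled variable -/

set_option autoImplicit false

open MeasureTheory Filter Topology ProbabilityTheory
open scoped BigOperators ENNReal NNReal InnerProductSpace ComplexConjugate

namespace Pool.Agent.Helper26.Cm

open Pool.Agent.H5R2.NB Pool.Agent.Helper26.Nb

lemma cond_le {ν : Measure ℝ} [IsProbabilityMeasure ν] {C : ℝ≥0} (hν : ν ≤ C • volume)
    {O : Set ℝ} (hO : MeasurableSet O) (h : ν O ≠ 0) :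
    ∃ C' : ℝ≥0, ProbabilityTheory.cond ν O ≤ C' • volume := by
  have h2 : ν O ≠ ∞ := measure_ne_top _ _
  refine ⟨(ν O).toNNReal⁻¹ * C, ?_⟩
  have h3 : ((((ν O).toNNReal⁻¹ : ℝ≥0)) : ℝ≥0∞) = (ν O)⁻¹ := by
    rw [ENNReal.coe_inv, ENNReal.coe_toNNReal h2]
    intro h0
    rw [ENNReal.toNNReal_eq_zero_iff] at h0
    rcases h0 with h0 | h0
    · exact h h0
    · exact h2 h0
  refine Measure.le_iff.2 fun A _ => ?_
  rw [cond_apply hO]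
  rw [Measure.smul_apply, ENNReal.smul_def, ENNReal.coe_mul, h3, smul_eq_mul, mul_assoc]
  gcongr
  calc ν (O ∩ A) ≤ ν A := measure_mono Set.inter_subset_right
    _ ≤ (C • volume : Measure ℝ) A := hν A
    _ = _ := by rw [Measure.smul_apply, ENNReal.smul_def, smul_eq_mul]

lemma ae_of_cond {ν : Measure ℝ} [IsProbabilityMeasure ν] {O : Set ℝ} (hO : MeasurableSet O)
    {p : ℝ → Prop} (h : ∀ᵐ κ ∂(ProbabilityTheory.cond ν O), p κ) :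
    ∀ᵐ κ ∂ν, κ ∈ O → p κ := by
  rw [← ae_restrict_iff' hO]
  have h2 : (ν O)⁻¹ ≠ 0 := by
    rw [ne_eq, ENNReal.inv_eq_zero]
    exact measure_ne_top _ _
  have h3 : ProbabilityTheory.cond ν O = (ν O)⁻¹ • ν.restrict O := rfl
  rw [h3] at h
  rw [ae_iff] at h ⊢
  rw [Measure.smul_apply, smul_eq_mul, mul_eq_zero] at h
  exact h.resolve_left h2

theorem kv {ι : Type} (W' U : ℝ → UG (L2 ι)) (e : L2 ι) (Φ : Set (L2 ι))
    (ν : Measure ℝ) [IsProbabilityMeasure ν] (C : ℝ≥0) (hν : ν ≤ C • volume) (Nk : ℕ → ℕ)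
    (hNk : Tendsto Nk atTop atTop)
    (base : ∀ (ν' : Measure ℝ) [IsProbabilityMeasure ν'] (C' : ℝ≥0), ν' ≤ C' • volume →
      ∀ (w : L2 ι →L[ℂ] L2 ι) (B : ℝ → L2 ι →L[ℂ] L2 ι),
        (∀ᵐ κ ∂ν', GGood (W' κ) (U κ) w Nk (B κ)) → ∀ᵐ κ ∂ν', ∀ φ ∈ Φ, ⟪φ, B κ e⟫_ℂ = 0)
    (v : ℝ → L2 ι →L[ℂ] L2 ι) (hv : Continuous v) (hfr : ∀ κ κ', FR (v κ - v κ'))
    (B : ℝ → L2 ι →L[ℂ] L2 ι) (hB : ∀ᵐ κ ∂ν, GGood (W' κ) (U κ) (v κ) Nk (B κ)) :
    ∀ᵐ κ ∂ν, ∀ φ ∈ Φ, ⟪φ, B κ e⟫_ℂ = 0 := by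
  set O : ℕ → ℚ → Set ℝ := fun n q => {κ | ‖v κ - v q‖ < 1 / ((n : ℝ) + 1)} with hO
  have hopen : ∀ n q, IsOpen (O n q) := by
    intro n q
    exact isOpen_lt (hv.sub continuous_const).norm continuous_const
  have claim : ∀ n q, ∀ᵐ κ ∂ν, κ ∈ O n q →
      ∀ φ ∈ Φ, ‖⟪φ, B κ e⟫_ℂ‖ ≤ ‖φ‖ * ‖e‖ * (1 / ((n : ℝ) + 1)) := by
    intro n q
    by_cases h0 : ν (O n q) = 0
    · have : ∀ᵐ κ ∂ν, κ ∉ O n q := measure_eq_zero_iff_ae_notMem.1 h0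
      filter_upwards [this] with κ hκ h1
      exact absurd h1 hκ
    · have hms := (hopen n q).measurableSet
      have hp : IsProbabilityMeasure (ProbabilityTheory.cond ν (O n q)) :=
        cond_isProbabilityMeasure h0
      obtain ⟨C', hC'⟩ := cond_le hν hms h0
      choose F hF using fun κ => fr_good (W' κ) (U κ) (v q - v κ) (hfr q κ) Nk hNk
      have hac : ProbabilityTheory.cond ν (O n q) ≪ ν := by
        have h3 : ProbabilityTheory.cond ν (O n q) = (ν (O n q))⁻¹ • ν.restrict (O n q) := rfl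
        rw [h3]
        exact (Measure.smul_absolutelyContinuous).trans Measure.restrict_le_self.absolutelyContinuous
      have hB' : ∀ᵐ κ ∂(ProbabilityTheory.cond ν (O n q)),
          GGood (W' κ) (U κ) (v q) Nk (B κ + F κ) := by
        filter_upwards [hac.ae_le hB] with κ hκ
        have := hκ.add (hF κ)
        rwa [add_sub_cancel] at this
      have hb := base _ C' hC' (v q) (fun κ => B κ + F κ) hB'
      refine ae_of_cond hms ?_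
      filter_upwards [hb, ae_cond_mem (μ := ν) hms] with κ hκ hκO φ hφ
      have h4 := hκ φ hφ
      rw [_root_.add_apply, inner_add_right] at h4
      have h5 : ⟪φ, B κ e⟫_ℂ = -⟪φ, F κ e⟫_ℂ := eq_neg_of_add_eq_zero_left h4
      rw [h5, norm_neg]
      have h6 := (hF κ).norm_le e
      have h7 : ‖v q - v κ‖ < 1 / ((n : ℝ) + 1) := by
        rw [norm_sub_rev]
        exact hκO
      calc ‖⟪φ, F κ e⟫_ℂ‖ ≤ ‖φ‖ * ‖F κ e‖ := norm_inner_le_norm _ _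
        _ ≤ ‖φ‖ * (‖v q - v κ‖ * ‖e‖) := by gcongr
        _ ≤ ‖φ‖ * ((1 / ((n : ℝ) + 1)) * ‖e‖) := by gcongr
        _ = _ := by ring
  have hall := ae_all_iff.2 fun n => ae_all_iff.2 fun q => claim n q
  filter_upwards [hall] with κ hκ φ hφ
  have hbd : ∀ n : ℕ, ‖⟪φ, B κ e⟫_ℂ‖ ≤ ‖φ‖ * ‖e‖ * (1 / ((n : ℝ) + 1)) := by
    intro n
    have hop : IsOpen {r : ℝ | ‖v κ - v r‖ < 1 / ((n : ℝ) + 1)} :=
      isOpen_lt (continuous_const.sub hv).norm continuous_const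
    obtain ⟨q, hq⟩ := Rat.denseRange_cast.exists_mem_open hop
      ⟨κ, by simp only [Set.mem_setOf_eq, sub_self, norm_zero]; positivity⟩
    exact hκ n q hq φ hφ
  have hlim : Tendsto (fun n : ℕ => ‖φ‖ * ‖e‖ * (1 / ((n : ℝ) + 1))) atTop (𝓝 0) := by
    have := (tendsto_one_div_add_atTop_nhds_zero_nat (𝕜 := ℝ)).const_mul (‖φ‖ * ‖e‖)
    rwa [mul_zero] at this
  have h8 := ge_of_tendsto' hlim hbd
  exact norm_le_zero_iff.1 h8

/-- the one-group version -/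
theorem kvA {ι : Type} [Countable ι] (U : ℝ → UG (L2 ι)) (e : L2 ι) (h : Fam U e)
    (ν : Measure ℝ) [IsProbabilityMeasure ν] (C : ℝ≥0) (hν : ν ≤ C • volume) (Nk : ℕ → ℕ)
    (hNk : Tendsto Nk atTop atTop)
    (v : ℝ → L2 ι →L[ℂ] L2 ι) (hv : Continuous v) (hfr : ∀ κ κ', FR (v κ - v κ'))
    (B : ℝ → L2 ι →L[ℂ] L2 ι) (hB : ∀ᵐ κ ∂ν, GGood (U κ) (U κ) (v κ) Nk (B κ)) :
    ∀ᵐ κ ∂ν, ∀ φ : L2 ι, (∀ t, ⟪φ, (U κ).U t e⟫_ℂ = 0) → ⟪φ, B κ e⟫_ℂ = 0 := by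
  have h1 := kv U U e {φ | ∀ t, ⟪φ, (U 0).U t e⟫_ℂ = 0} ν C hν Nk hNk
    (fun ν' _ C' hν' w B hB => by
      filter_upwards [ALL.a_PROPR ι U e h ν' C' hν' w Nk hNk B hB] with κ hκ φ hφ
      exact hκ φ hφ) v hv hfr B hB
  filter_upwards [h1] with κ hκ φ hφ
  exact hκ φ (t_NN ι U e h κ 0 φ hφ).1

/-- the two-group version -/
theorem kvB {ι : Type} [Countable ι] (W' : UG (L2 ι)) (U : ℝ → UG (L2 ι)) (e : L2 ι)
    (h : Fam U e)
    (ν : Measure ℝ) [IsProbabilityMeasure ν] (C : ℝ≥0) (hν : ν ≤ C • volume) (Nk : ℕ → ℕ)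
    (hNk : Tendsto Nk atTop atTop)
    (v : ℝ → L2 ι →L[ℂ] L2 ι) (hv : Continuous v) (hfr : ∀ κ κ', FR (v κ - v κ'))
    (B : ℝ → L2 ι →L[ℂ] L2 ι) (hB : ∀ᵐ κ ∂ν, GGood W' (U κ) (v κ) Nk (B κ)) :
    ∀ᵐ κ ∂ν, B κ e = 0 := by
  have h1 := kv (fun _ => W') U e Set.univ ν C hν Nk hNk
    (fun ν' _ C' hν' w B hB => by
      filter_upwards [gzero W' U e h ν' C' hν' w Nk hNk B hB] with κ hκ φ _
      rw [hκ, inner_zero_right]) v hv hfr B hB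
  filter_upwards [h1] with κ hκ
  exact inner_self_eq_zero.1 (hκ (B κ e) (Set.mem_univ _))

end Pool.Agent.Helper26.Cm
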