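import Pool.Agent.Helper26.Cm.Av

/-! # Local continuous covariant operators -/

set_option autoImplicit false
set_option linter.unusedSectionVars false

open MeasureTheory Filter Topology ProbabilityTheory
open scoped BigOperators ENNReal NNReal InnerProductSpace ComplexConjugate BoundedContinuousFunction

namespace Pool.Agent.Helper26.Cm

open Pool.Agent.H5R2.NB Pool.Agent.Helper26.Nb

variable {d : ℕ}

/-! ### multiplication operators -/

lemma mul_mem (w : Site d → ℂ) (R : ℝ) (hw : ∀ x, ‖w x‖ ≤ R) (ψ : L2 (Site d)) :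
    Memℓp (fun x => w x * ψ x) 2 := by
  rw [mem2]
  have h1 : Summable fun x => R ^ 2 * ‖ψ x‖ ^ 2 := (summ ψ).mul_left _
  refine Summable.of_nonneg_of_le (fun _ => by positivity) (fun x => ?_) h1
  rw [norm_mul, mul_pow]
  gcongr
  exact hw x

/-- multiplication by a bounded function -/
noncomputable def mulL (w : Site d → ℂ) (R : ℝ) (hw : ∀ x, ‖w x‖ ≤ R) :
    L2 (Site d) →L[ℂ] L2 (Site d) :=
  LinearMap.mkContinuous
    { toFun := fun ψ => ⟨fun x => w x * ψ x, mul_mem w R hw ψ⟩
      map_add' := fun f g => by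
        ext x
        show w x * (f + g : L2 (Site d)) x = w x * f x + w x * g x
        rw [lp.coeFn_add, Pi.add_apply, mul_add]
      map_smul' := fun a f => by
        ext x
        show w x * (a • f : L2 (Site d)) x = a * (w x * f x)
        rw [lp.coeFn_smul, Pi.smul_apply, smul_eq_mul]
        ring } (max R 0)
    fun ψ => by
      show ‖(⟨fun x => w x * ψ x, mul_mem w R hw ψ⟩ : L2 (Site d))‖ ≤ max R 0 * ‖ψ‖
      have h0 : 0 ≤ max R 0 := le_max_right _ _
      have h1 : ‖(⟨fun x => w x * ψ x, mul_mem w R hw ψ⟩ : L2 (Site d))‖ ^ 2 ≤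
          (max R 0 * ‖ψ‖) ^ 2 := by
        rw [norm_sq, mul_pow, norm_sq, ← tsum_mul_left]
        refine Summable.tsum_le_tsum (fun x => ?_) ?_ ?_
        · show ‖w x * ψ x‖ ^ 2 ≤ _
          rw [norm_mul, mul_pow]
          gcongr
          exact (hw x).trans (le_max_left _ _)
        · exact (mem2 _).1 (mul_mem w R hw ψ)
        · exact (summ ψ).mul_left _
      exact (pow_le_pow_iff_left₀ (norm_nonneg _) (by positivity) (by norm_num)).1 h1

lemma mulL_apply (w : Site d → ℂ) (R : ℝ) (hw : ∀ x, ‖w x‖ ≤ R) (ψ : L2 (Site d)) (x : Site d) :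
    (mulL w R hw ψ) x = w x * ψ x := rfl

lemma mulL_le (w : Site d → ℂ) (R : ℝ) (hw : ∀ x, ‖w x‖ ≤ R) : ‖mulL w R hw‖ ≤ max R 0 :=
  LinearMap.mkContinuous_norm_le _ (le_max_right _ _) _

lemma mulL_dl (w : Site d → ℂ) (R : ℝ) (hw : ∀ x, ‖w x‖ ≤ R) (y : Site d) :
    mulL w R hw (dl y) = w y • dl y := by
  ext x
  rw [mulL_apply, lp.coeFn_smul, Pi.smul_apply, smul_eq_mul, dl_apply]
  by_cases h : y = x
  · subst h; simp
  · simp [h]

lemma mulL_cont {Y : Type} [TopologicalSpace Y] (w : Y → Site d → ℂ) (R : ℝ)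
    (hw : ∀ y x, ‖w y x‖ ≤ R) (hc : ∀ x, Continuous fun y => w y x) :
    Continuous fun q : Y × L2 (Site d) => mulL (w q.1) R (hw q.1) q.2 := by
  rw [continuous_iff_continuousAt]
  rintro ⟨y₀, ψ₀⟩
  rw [ContinuousAt, tendsto_iff_norm_sub_tendsto_zero]
  have h1 : ∀ q : Y × L2 (Site d),
      ‖mulL (w q.1) R (hw q.1) q.2 - mulL (w y₀) R (hw y₀) ψ₀‖ ≤
        max R 0 * ‖q.2 - ψ₀‖ +
          ‖mulL (w q.1) R (hw q.1) ψ₀ - mulL (w y₀) R (hw y₀) ψ₀‖ := by
    intro q
    have e : mulL (w q.1) R (hw q.1) q.2 - mulL (w y₀) R (hw y₀) ψ₀ =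
        mulL (w q.1) R (hw q.1) (q.2 - ψ₀) +
          (mulL (w q.1) R (hw q.1) ψ₀ - mulL (w y₀) R (hw y₀) ψ₀) := by
      rw [map_sub]
      abel
    rw [e]
    refine (norm_add_le _ _).trans ?_
    gcongr
    refine ((mulL (w q.1) R (hw q.1)).le_opNorm _).trans ?_
    gcongr
    exact mulL_le _ _ _
  have h2 : Tendsto (fun y => ‖mulL (w y) R (hw y) ψ₀ - mulL (w y₀) R (hw y₀) ψ₀‖) (𝓝 y₀)
      (𝓝 0) := by
    have h3 : Tendsto (fun y => ‖mulL (w y) R (hw y) ψ₀ - mulL (w y₀) R (hw y₀) ψ₀‖ ^ 2) (𝓝 y₀)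
        (𝓝 0) := by
      have e : ∀ y, ‖mulL (w y) R (hw y) ψ₀ - mulL (w y₀) R (hw y₀) ψ₀‖ ^ 2 =
          ∑' x, ‖(w y x - w y₀ x) * ψ₀ x‖ ^ 2 := by
        intro y
        rw [norm_sq]
        refine tsum_congr fun x => ?_
        rw [lp.coeFn_sub, Pi.sub_apply, mulL_apply, mulL_apply, ← sub_mul]
      simp only [e]
      have h4 := tendsto_tsum_of_dominated_convergence
        (𝓕 := 𝓝 y₀) (f := fun y x => ‖(w y x - w y₀ x) * ψ₀ x‖ ^ 2) (g := fun _ : Site d => (0 : ℝ))
        (bound := fun x => (2 * R) ^ 2 * ‖ψ₀ x‖ ^ 2) ((summ ψ₀).mul_left _) (fun x => by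
          have hcx : Continuous fun y => ‖(w y x - w y₀ x) * ψ₀ x‖ ^ 2 :=
            ((((hc x).sub continuous_const).mul continuous_const).norm).pow 2
          have := hcx.tendsto y₀
          simpa using this) (Eventually.of_forall fun y x => by
          rw [Real.norm_of_nonneg (by positivity), norm_mul, mul_pow]
          gcongr
          refine (norm_sub_le _ _).trans ?_
          linarith [hw y x, hw y₀ x])
      simpa using h4
    have h5 := h3.sqrt
    simpa [Real.sqrt_sq (norm_nonneg _)] using h5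
  have h6 : Tendsto (fun q : Y × L2 (Site d) => max R 0 * ‖q.2 - ψ₀‖ +
      ‖mulL (w q.1) R (hw q.1) ψ₀ - mulL (w y₀) R (hw y₀) ψ₀‖) (𝓝 (y₀, ψ₀)) (𝓝 0) := by
    have h7 : Tendsto (fun q : Y × L2 (Site d) => max R 0 * ‖q.2 - ψ₀‖) (𝓝 (y₀, ψ₀)) (𝓝 0) := by
      have hcc : Continuous fun q : Y × L2 (Site d) => max R 0 * ‖q.2 - ψ₀‖ := by fun_prop
      have := hcc.tendsto (y₀, ψ₀)
      simpa using this
    have h8 := h2.comp (continuous_fst.tendsto (y₀, ψ₀))
    have h9 := h7.add h8
    rw [add_zero] at h9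
    exact h9
  exact squeeze_zero (fun _ => norm_nonneg _) h1 h6

/-- a difference of multiplication operators which agree off a finite set -/
lemma mulL_diff (w w' : Site d → ℂ) (R : ℝ) (hw : ∀ x, ‖w x‖ ≤ R) (hw' : ∀ x, ‖w' x‖ ≤ R)
    (s : Finset (Site d)) (h : ∀ y, y ∉ s → w y = w' y) :
    mulL w R hw = mulL w' R hw' + ∑ y ∈ s, (w y - w' y) • rk (dl y) (dl y) := by
  refine ContinuousLinearMap.ext fun ψ => ?_
  rw [_root_.add_apply, _root_.sum_apply]
  have e1 : ∀ y ∈ s, ((w y - w' y) • rk (dl y : L2 (Site d)) (dl y)) ψ =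
      ((w y - w' y) * ψ y) • (dl y : L2 (Site d)) := by
    intro y _
    rw [_root_.smul_apply, rk_apply, STAT.inner_dl, smul_smul]
  rw [Finset.sum_congr rfl e1]
  ext x
  rw [lp.coeFn_add, Pi.add_apply, mulL_apply, mulL_apply]
  have e2 : (∑ y ∈ s, ((w y - w' y) * ψ y) • (dl y : L2 (Site d)) : L2 (Site d)) x =
      if x ∈ s then (w x - w' x) * ψ x else 0 := by
    have := Ws_apply s (fun y => (w y - w' y) * ψ y) x
    unfold Ws at this
    simpa using this
  rw [e2]
  by_cases hx : x ∈ s
  · rw [if_pos hx]; ring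
  · rw [if_neg hx, h x hx, add_zero]

/-! ### the local operators -/

section loc

variable {α : Type} [MeasurableSpace α] [TopologicalSpace α]

/-- the chosen shift `ψ ↦ ψ(· - z)` -/
noncomputable def Sh (z : Site d) : L2 (Site d) →L[ℂ] L2 (Site d) := ((t_OPS d).1 (-z)).choose

lemma Sh_spec (z : Site d) : IsShift (-z) (Sh z) := ((t_OPS d).1 (-z)).choose_spec

lemma Sh_dl (z y : Site d) : Sh z (dl y) = dl (y + z) := by
  have := shift_dl' (Sh_spec z) (y + z)
  simpa using this

/-- local operator with coefficients `a` -/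
noncomputable def vop (s : Finset (Site d)) (a : Site d → (Site d → α) → ℂ) (R : ℝ)
    (hR : ∀ z V, ‖a z V‖ ≤ R) (V : Site d → α) : L2 (Site d) →L[ℂ] L2 (Site d) :=
  ∑ z ∈ s, (Sh z).comp (mulL (fun y => a z (sh y V)) R (fun y => hR z (sh y V)))

variable (s : Finset (Site d)) (a : Site d → (Site d → α) → ℂ) (R : ℝ)
    (hR : ∀ z V, ‖a z V‖ ≤ R)

lemma vop_dl0 (V : Site d → α) : vop s a R hR V (dl 0) = ∑ z ∈ s, a z V • dl z := by
  unfold vop
  rw [_root_.sum_apply]
  refine Finset.sum_congr rfl fun z _ => ?_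
  rw [ContinuousLinearMap.comp_apply, mulL_dl, map_smul, Sh_dl, zero_add]
  congr 2
  funext y
  simp [sh]

lemma vop_cont (ha : ∀ z, Continuous (a z)) :
    Continuous fun q : (Site d → α) × L2 (Site d) => vop s a R hR q.1 q.2 := by
  unfold vop
  simp only [_root_.sum_apply, ContinuousLinearMap.comp_apply]
  refine continuous_finsetSum _ fun z _ => ?_
  refine (Sh z).continuous.comp ?_
  exact mulL_cont (fun (V : Site d → α) y => a z (sh y V)) R (fun V y => hR z (sh y V))
    (fun y => (ha z).comp (by unfold sh; fun_prop))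

lemma vop_cov (z' : Site d) (S : L2 (Site d) →L[ℂ] L2 (Site d)) (hS : IsShift z' S)
    (V : Site d → α) (ψ : L2 (Site d)) :
    vop s a R hR (sh z' V) (S ψ) = S (vop s a R hR V ψ) := by
  unfold vop
  simp only [_root_.sum_apply, ContinuousLinearMap.comp_apply, map_sum]
  refine Finset.sum_congr rfl fun z _ => ?_
  ext x
  rw [Sh_spec z, mulL_apply, hS, hS, Sh_spec z, mulL_apply]
  have e1 : sh (x + -z) (sh z' V) = sh (x + z' + -z) V := by
    funext y
    simp only [sh]
    congr 1
    abel
  have e2 : x + -z + z' = x + z' + -z := by abel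
  rw [e1, e2]

lemma vop_bdd (V : Site d → α) : ‖vop s a R hR V‖ ≤ ∑ z ∈ s, ‖(Sh z : L2 (Site d) →L[ℂ] _)‖ *
    max R 0 := by
  unfold vop
  refine (norm_sum_le _ _).trans (Finset.sum_le_sum fun z _ => ?_)
  refine (ContinuousLinearMap.opNorm_comp_le _ _).trans ?_
  gcongr
  exact mulL_le _ _ _

lemma vop_cv [SecondCountableTopology α] [BorelSpace α] (ha : ∀ z, Continuous (a z)) :
    Cv (vop s a R hR) := by
  refine ⟨fun z S hS V ψ => vop_cov s a R hR z S hS V ψ, fun x y => ?_, _, vop_bdd s a R hR⟩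
  have h1 := (vop_cont s a R hR ha).comp (continuous_id.prodMk (continuous_const (y := dl y)))
  exact ((STAT.cont_eval x).comp h1).measurable

/-- dependence on the value at the origin -/
lemma vop_update (Λ : Finset (Site d))
    (hΛ : ∀ z V W, (∀ x ∈ Λ, V x = W x) → a z V = a z W) (V : Site d → α) (r r' : α) :
    vop s a R hR (Function.update V 0 r) = vop s a R hR (Function.update V 0 r') +
      ∑ j ∈ s ×ˢ (Λ.image fun y => -y), (a j.1 (sh j.2 (Function.update V 0 r)) -
        a j.1 (sh j.2 (Function.update V 0 r'))) • rk (dl (j.2 + j.1)) (dl j.2) := by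
  classical
  have h1 : ∀ z y, y ∉ (Λ.image fun y => -y) → a z (sh y (Function.update V 0 r)) =
      a z (sh y (Function.update V 0 r')) := by
    intro z y hy
    refine hΛ z _ _ fun x hx => ?_
    simp only [sh]
    have hne : x + y ≠ 0 := by
      intro h0
      apply hy
      rw [Finset.mem_image]
      exact ⟨x, hx, neg_eq_of_add_eq_zero_right h0⟩
    rw [Function.update_of_ne hne, Function.update_of_ne hne]
  unfold vop
  rw [Finset.sum_product, ← Finset.sum_add_distrib]
  refine Finset.sum_congr rfl fun z _ => ?_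
  rw [mulL_diff _ (fun y => a z (sh y (Function.update V 0 r'))) R _
    (fun y => hR z _) (Λ.image fun y => -y) (h1 z)]
  rw [ContinuousLinearMap.comp_add]
  congr 1
  refine ContinuousLinearMap.ext fun ψ => ?_
  rw [ContinuousLinearMap.comp_apply, _root_.sum_apply, _root_.sum_apply, map_sum]
  refine Finset.sum_congr rfl fun y _ => ?_
  simp only [_root_.smul_apply, map_smul, rk_apply, Sh_dl]

lemma vop_fr (Λ : Finset (Site d))
    (hΛ : ∀ z V W, (∀ x ∈ Λ, V x = W x) → a z V = a z W) (V : Site d → α) (r r' : α) :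
    FR (vop s a R hR (Function.update V 0 r) - vop s a R hR (Function.update V 0 r')) := by
  classical
  refine ⟨Site d × Site d, s ×ˢ (Λ.image fun y => -y), fun j =>
    (a j.1 (sh j.2 (Function.update V 0 r)) -
        a j.1 (sh j.2 (Function.update V 0 r'))) • dl (j.2 + j.1), fun j => dl j.2, ?_⟩
  rw [vop_update s a R hR Λ hΛ V r r', add_sub_cancel_left]
  refine Finset.sum_congr rfl fun j _ => ?_
  refine ContinuousLinearMap.ext fun ψ => ?_
  rw [_root_.smul_apply, rk_apply, rk_apply, smul_comm]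

lemma vop_cont_update (ha : ∀ z, Continuous (a z)) (Λ : Finset (Site d))
    (hΛ : ∀ z V W, (∀ x ∈ Λ, V x = W x) → a z V = a z W) (V : Site d → α) (q : ℝ → α)
    (hq : Continuous q) :
    Continuous fun κ : ℝ => vop s a R hR (Function.update V 0 (q κ)) := by
  classical
  have e : (fun κ : ℝ => vop s a R hR (Function.update V 0 (q κ))) = fun κ =>
      vop s a R hR (Function.update V 0 (q 0)) +
      ∑ j ∈ s ×ˢ (Λ.image fun y => -y), (a j.1 (sh j.2 (Function.update V 0 (q κ))) -
        a j.1 (sh j.2 (Function.update V 0 (q 0)))) • rk (dl (j.2 + j.1)) (dl j.2) := by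
    funext κ
    exact vop_update s a R hR Λ hΛ V (q κ) (q 0)
  rw [e]
  refine continuous_const.add (continuous_finsetSum _ fun j _ => ?_)
  have h1 : Continuous fun κ : ℝ => Function.update V (0 : Site d) (q κ) :=
    continuous_const.update 0 hq
  have h2 : Continuous (sh j.2 : (Site d → α) → Site d → α) := by
    unfold sh
    fun_prop
  have h3 : Continuous fun κ : ℝ => a j.1 (sh j.2 (Function.update V 0 (q κ))) -
      a j.1 (sh j.2 (Function.update V 0 (q 0))) :=
    ((ha j.1).comp (h2.comp h1)).sub continuous_const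
  exact h3.smul continuous_const

end loc

/-! ### density of local continuous functions -/

section dens

variable {α : Type} [MeasurableSpace α] [TopologicalSpace α] [PolishSpace α] [BorelSpace α]
  [Inhabited α]

/-- local, bounded, continuous -/
structure LC (a : (Site d → α) → ℂ) : Prop where
  cont : Continuous a
  bdd : ∃ R, ∀ V, ‖a V‖ ≤ R
  loc : ∃ Λ : Finset (Site d), ∀ V W, (∀ x ∈ Λ, V x = W x) → a V = a W

open Classical in
/-- freeze the environment outside `Λ` -/
noncomputable def freeze (Λ : Finset (Site d)) (V : Site d → α) : Site d → α :=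
  fun x => if x ∈ Λ then V x else default

theorem dens_LC (ρ : Measure α) [IsProbabilityMeasure ρ] {f : (Site d → α) → ℂ}
    (hf : MemLp f 2 (Measure.infinitePi fun _ : Site d => ρ)) {ε : ℝ≥0∞} (hε : ε ≠ 0) :
    ∃ a, LC a ∧ eLpNorm (fun V => f V - a V) 2 (Measure.infinitePi fun _ : Site d => ρ) ≤ ε := by
  classical
  set P : Measure (Site d → α) := Measure.infinitePi fun _ : Site d => ρ with hP
  have h2 : ε / 2 ≠ 0 := by simp [hε]
  obtain ⟨g, hg, -⟩ := hf.exists_boundedContinuous_eLpNorm_sub_le (by norm_num) h2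
  have hcf : ∀ Λ : Finset (Site d), Continuous (freeze Λ : (Site d → α) → Site d → α) := by
    intro Λ
    unfold freeze
    refine continuous_pi fun x => ?_
    by_cases h : x ∈ Λ
    · simp only [h, if_true]
      exact continuous_apply x
    · simp only [h, if_false]
      exact continuous_const
  have hlim : Tendsto (fun Λ : Finset (Site d) => ∫⁻ V, ‖g V - g (freeze Λ V)‖ₑ ^ 2 ∂P) atTop
      (𝓝 0) := by
    have h3 := tendsto_lintegral_filter_of_dominated_convergence (μ := P)
      (l := (atTop : Filter (Finset (Site d))))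
      (F := fun Λ V => ‖g V - g (freeze Λ V)‖ₑ ^ 2) (f := fun _ => 0)
      (fun _ => (ENNReal.ofReal (2 * ‖g‖)) ^ 2) ?_ ?_ ?_ ?_
    · simpa using h3
    · refine Eventually.of_forall fun Λ => ?_
      have : Continuous fun V => g V - g (freeze Λ V) :=
        g.continuous.sub (g.continuous.comp (hcf Λ))
      exact (this.enorm.measurable).pow_const 2
    · refine Eventually.of_forall fun Λ => Eventually.of_forall fun V => ?_
      gcongr
      rw [← ofReal_norm]
      refine ENNReal.ofReal_le_ofReal ((norm_sub_le _ _).trans ?_)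
      have h4 := g.norm_coe_le_norm V
      have h5 := g.norm_coe_le_norm (freeze Λ V)
      linarith
    · rw [lintegral_const, measure_univ, mul_one]
      exact ENNReal.pow_ne_top ENNReal.ofReal_ne_top
    · refine Eventually.of_forall fun V => ?_
      have h6 : Tendsto (fun Λ : Finset (Site d) => freeze Λ V) atTop (𝓝 V) := by
        rw [tendsto_pi_nhds]
        intro x
        refine tendsto_const_nhds.congr' ?_
        filter_upwards [eventually_ge_atTop ({x} : Finset (Site d))] with Λ hΛ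
        have : x ∈ Λ := hΛ (Finset.mem_singleton_self x)
        simp [freeze, this]
      have h7 : Tendsto (fun Λ : Finset (Site d) => ‖g V - g (freeze Λ V)‖ₑ) atTop (𝓝 0) := by
        have h8 := (tendsto_const_nhds (x := g V)).sub ((g.continuous.tendsto V).comp h6)
        rw [sub_self] at h8
        have h9 := h8.enorm
        rwa [enorm_zero] at h9
      have h10 := ((ENNReal.continuous_pow 2).tendsto 0).comp h7
      simpa [Function.comp_def] using h10
  have hev := (tendsto_order.1 hlim).2 ((ε / 2) ^ 2) (by positivity)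
  obtain ⟨Λ, hΛ⟩ := hev.exists
  refine ⟨fun V => g (freeze Λ V), ⟨g.continuous.comp (hcf Λ), ⟨‖g‖, fun V =>
    g.norm_coe_le_norm _⟩, Λ, fun V W h => ?_⟩, ?_⟩
  · have : freeze Λ V = freeze Λ W := by
      funext x
      unfold freeze
      by_cases hx : x ∈ Λ
      · simp [hx, h x hx]
      · simp [hx]
    rw [this]
  · have e : (fun V => f V - g (freeze Λ V)) =
        (f - (g : (Site d → α) → ℂ)) + fun V => g V - g (freeze Λ V) := by
      funext V
      rw [Pi.add_apply, Pi.sub_apply]
      ring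
    rw [e]
    have hc : Continuous fun V => g V - g (freeze Λ V) :=
      g.continuous.sub (g.continuous.comp (hcf Λ))
    refine (eLpNorm_add_le (hf.1.sub g.continuous.aestronglyMeasurable)
      hc.aestronglyMeasurable (by norm_num)).trans ?_
    calc _ ≤ ε / 2 + ε / 2 := add_le_add hg (n2_le _ _ _ hΛ.le)
      _ = ε := ENNReal.add_halves ε

end dens

end Pool.Agent.Helper26.Cm
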