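import Pool.Agent.Helper26.Nb.Fib
import Pool.Agent.Helper26.Cm.Kv

/-! # Covariant operator families, the trace property and stationarity -/

set_option autoImplicit false

open MeasureTheory Filter Topology ProbabilityTheory
open scoped BigOperators ENNReal NNReal InnerProductSpace ComplexConjugate

namespace Pool.Agent.Helper26.Cm

open Pool.Agent.H5R2.NB Pool.Agent.Helper26.Nb

variable {d : ℕ} {α : Type} [MeasurableSpace α]

/-- measurable coordinates give strong measurability -/
lemma sm_of_coord {Y : Type} [MeasurableSpace Y] {F : Y → L2 (Site d)}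
    (h : ∀ x, Measurable fun y => (F y) x) : StronglyMeasurable F := by
  refine stronglyMeasurable_of_tendsto (u := (atTop : Filter (Finset (Site d))))
    (f := fun s y => CV.PF s (F y)) (fun s => ?_) ?_
  · have e1 : (fun y => CV.PF s (F y)) = fun y => ∑ x ∈ s, (F y) x • (dl x : L2 (Site d)) := by
      funext y
      rw [CV.PF_apply]
      refine Finset.sum_congr rfl fun x _ => ?_
      unfold dl
      rw [← lp.single_smul, smul_eq_mul, mul_one]
    rw [e1]
    exact Finset.stronglyMeasurable_fun_sum s fun x _ => (h x).stronglyMeasurable.smul_const _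
  · rw [tendsto_pi_nhds]
    intro y
    exact CV.PF_tendsto (F y)

/-- covariant families of bounded operators -/
structure Cv (X : (Site d → α) → L2 (Site d) →L[ℂ] L2 (Site d)) : Prop where
  cov : ∀ (z : Site d) (S : L2 (Site d) →L[ℂ] L2 (Site d)), IsShift z S →
    ∀ V ψ, X (sh z V) (S ψ) = S (X V ψ)
  meas : ∀ x y, Measurable fun V => (X V (dl y)) x
  bdd : ∃ R, ∀ V, ‖X V‖ ≤ R

lemma shift_dl' {z : Site d} {S : L2 (Site d) →L[ℂ] L2 (Site d)} (hS : IsShift z S)
    (y : Site d) : S (dl (y + z)) = dl y := by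
  ext x
  rw [hS, dl_apply, dl_apply]
  by_cases h : y = x
  · subst h; simp
  · have : y + z ≠ x + z := fun h' => h (add_right_cancel h')
    simp [h, this]

namespace Cv

variable {X Y : (Site d → α) → L2 (Site d) →L[ℂ] L2 (Site d)}

lemma me (hX : Cv X) (V : Site d → α) (x y z : Site d) :
    (X (sh z V) (dl y)) x = (X V (dl (y + z))) (x + z) := by
  obtain ⟨S, hS⟩ := (t_OPS d).1 z
  rw [← shift_dl' hS y, hX.cov z S hS, hS]

lemma sm (hX : Cv X) (y : Site d) : StronglyMeasurable fun V => X V (dl y) :=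
  sm_of_coord fun x => hX.meas x y

/-- strong measurability of `X V (F V)` -/
lemma sm_apply (hX : Cv X) {F : (Site d → α) → L2 (Site d)} (hF : StronglyMeasurable F) :
    StronglyMeasurable fun V => X V (F V) := by
  refine stronglyMeasurable_of_tendsto (u := (atTop : Filter (Finset (Site d))))
    (f := fun s V => X V (CV.PF s (F V))) (fun s => ?_) ?_
  · have e1 : (fun V => X V (CV.PF s (F V))) = fun V => ∑ x ∈ s, (F V) x • X V (dl x) := by
      funext V
      rw [CV.PF_apply, map_sum]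
      refine Finset.sum_congr rfl fun x _ => ?_
      have : (lp.single 2 x ((F V) x) : L2 (Site d)) = (F V) x • dl x := by
        unfold dl
        rw [← lp.single_smul, smul_eq_mul, mul_one]
      rw [this, map_smul]
    rw [e1]
    refine Finset.stronglyMeasurable_fun_sum s fun x _ => ?_
    have h1 : StronglyMeasurable fun V => (F V) x :=
      (STAT.cont_eval x).comp_stronglyMeasurable hF
    exact h1.smul (hX.sm x)
  · rw [tendsto_pi_nhds]
    intro V
    exact ((X V).continuous.tendsto _).comp (CV.PF_tendsto (F V))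

lemma comp (hX : Cv X) (hY : Cv Y) : Cv fun V => (X V).comp (Y V) := by
  refine ⟨fun z S hS V ψ => ?_, fun x y => ?_, ?_⟩
  · simp only [ContinuousLinearMap.comp_apply]
    rw [hY.cov z S hS, hX.cov z S hS]
  · exact ((STAT.cont_eval x).comp_stronglyMeasurable (hX.sm_apply (hY.sm y))).measurable
  · obtain ⟨R, hR⟩ := hX.bdd
    obtain ⟨R', hR'⟩ := hY.bdd
    refine ⟨R * R', fun V => ?_⟩
    refine (ContinuousLinearMap.opNorm_comp_le _ _).trans ?_
    have h0 : 0 ≤ R := (norm_nonneg _).trans (hR V)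
    exact mul_le_mul (hR V) (hR' V) (norm_nonneg _) h0

lemma sub (hX : Cv X) (hY : Cv Y) : Cv fun V => X V - Y V := by
  refine ⟨fun z S hS V ψ => ?_, fun x y => ?_, ?_⟩
  · rw [_root_.sub_apply, _root_.sub_apply, hX.cov z S hS, hY.cov z S hS, map_sub]
  · have : (fun V => ((X V - Y V) (dl y)) x) = fun V => (X V (dl y)) x - (Y V (dl y)) x := by
      funext V
      rw [_root_.sub_apply, lp.coeFn_sub, Pi.sub_apply]
    rw [this]
    exact (hX.meas x y).sub (hY.meas x y)
  · obtain ⟨R, hR⟩ := hX.bdd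
    obtain ⟨R', hR'⟩ := hY.bdd
    exact ⟨R + R', fun V => (norm_sub_le _ _).trans (add_le_add (hR V) (hR' V))⟩

/-- adjoint family -/
lemma adj (hX : Cv X) : Cv fun V => ContinuousLinearMap.adjoint (X V) := by
  refine ⟨fun z S hS V ψ => ?_, fun x y => ?_, ?_⟩
  · obtain ⟨T, hT⟩ := (t_OPS d).1 (-z)
    have hST : ∀ f, S (T f) = f := by
      intro f
      ext x
      rw [hS, hT]
      simp
    have hTS : ∀ f, T (S f) = f := by
      intro f
      ext x
      rw [hT, hS]
      simp
    refine ext_inner_left ℂ fun φ => ?_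
    rw [ContinuousLinearMap.adjoint_inner_right]
    have h1 : X (sh z V) φ = S (X V (T φ)) := by
      have := hX.cov z S hS V (T φ)
      rwa [hST] at this
    rw [h1, CV.shift_adj hS hT, hTS]
    have h2 : ⟪φ, S (ContinuousLinearMap.adjoint (X V) ψ)⟫_ℂ =
        ⟪T φ, ContinuousLinearMap.adjoint (X V) ψ⟫_ℂ := by
      rw [CV.shift_adj hT (by simpa using hS)]
    rw [h2, ContinuousLinearMap.adjoint_inner_right]
  · have : (fun V => (ContinuousLinearMap.adjoint (X V) (dl y)) x) =
        fun V => conj ((X V (dl x)) y) := by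
      funext V
      rw [← STAT.inner_dl x, ContinuousLinearMap.adjoint_inner_right, STAT.inner_dl']
    rw [this]
    exact Complex.continuous_conj.measurable.comp (hX.meas y x)
  · obtain ⟨R, hR⟩ := hX.bdd
    refine ⟨R, fun V => ?_⟩
    rw [LinearIsometryEquiv.norm_map]
    exact hR V

lemma norm_dl_le {R : ℝ} (hR : ∀ V, ‖X V‖ ≤ R) (V : Site d → α) (y : Site d) :
    ‖X V (dl y)‖ ≤ R := by
  refine ((X V).le_opNorm _).trans ?_
  rw [STAT.norm_dl, mul_one]
  exact hR V

/-- the trace property -/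
theorem tr (hX : Cv X) (hY : Cv Y) (ρ : Measure α) [IsProbabilityMeasure ρ] :
    ∫ V, ⟪X V (dl 0), Y V (dl 0)⟫_ℂ ∂(Measure.infinitePi fun _ : Site d => ρ) =
      ∫ V, ⟪ContinuousLinearMap.adjoint (Y V) (dl 0), ContinuousLinearMap.adjoint (X V) (dl 0)⟫_ℂ
        ∂(Measure.infinitePi fun _ : Site d => ρ) := by
  set P : Measure (Site d → α) := Measure.infinitePi fun _ : Site d => ρ with hP
  obtain ⟨R, hR⟩ := hX.bdd
  obtain ⟨R', hR'⟩ := hY.bdd
  have hRn : ∀ (V : Site d → α) (A : L2 (Site d) →L[ℂ] L2 (Site d)),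
      ‖ContinuousLinearMap.adjoint A‖ = ‖A‖ := fun _ A => LinearIsometryEquiv.norm_map _ A
  have E1 := STAT.exch P (fun V => X V (dl 0)) (fun V => Y V (dl 0)) (max R R')
    (fun x => (hX.meas x 0).aestronglyMeasurable) (fun x => (hY.meas x 0).aestronglyMeasurable)
    (fun V => (norm_dl_le hR V 0).trans (le_max_left _ _))
    (fun V => (norm_dl_le hR' V 0).trans (le_max_right _ _))
  have E2 := STAT.exch P (fun V => ContinuousLinearMap.adjoint (Y V) (dl 0))
    (fun V => ContinuousLinearMap.adjoint (X V) (dl 0)) (max R R')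
    (fun x => (hY.adj.meas x 0).aestronglyMeasurable)
    (fun x => (hX.adj.meas x 0).aestronglyMeasurable)
    (fun V => (norm_dl_le (X := fun V => ContinuousLinearMap.adjoint (Y V)) (R := R')
      (fun V => by rw [hRn V]; exact hR' V) V 0).trans (le_max_right _ _))
    (fun V => (norm_dl_le (X := fun V => ContinuousLinearMap.adjoint (X V)) (R := R)
      (fun V => by rw [hRn V]; exact hR V) V 0).trans (le_max_left _ _))
  have ad : ∀ (A : L2 (Site d) →L[ℂ] L2 (Site d)) (x : Site d),
      (ContinuousLinearMap.adjoint A (dl 0)) x = conj ((A (dl x)) 0) := by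
    intro A x
    rw [← STAT.inner_dl x, ContinuousLinearMap.adjoint_inner_right, STAT.inner_dl']
  simp only [ad, Complex.conj_conj] at E2
  have key : ∀ x : Site d, (∫ V, conj ((X V (dl 0)) x) * (Y V (dl 0)) x ∂P) =
      ∫ V, (Y V (dl (-x))) 0 * conj ((X V (dl (-x))) 0) ∂P := by
    intro x
    have hm : Measurable fun V => (Y V (dl (-x))) 0 * conj ((X V (dl (-x))) 0) :=
      (hY.meas 0 (-x)).mul (Complex.continuous_conj.measurable.comp (hX.meas 0 (-x)))
    have hmp := mp_sh (d := d) ρ x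
    have h1 := integral_map (μ := P) (φ := sh x)
      (f := fun V => (Y V (dl (-x))) 0 * conj ((X V (dl (-x))) 0)) hmp.measurable.aemeasurable
      hm.aestronglyMeasurable
    have h2 : Measure.map (sh x) P = P := hmp.map_eq
    rw [h2] at h1
    rw [h1]
    refine integral_congr_ae (Eventually.of_forall fun V => ?_)
    simp only
    rw [hY.me, hX.me, neg_add_cancel, zero_add, mul_comm]
  have E3 : HasSum (fun x => ∫ V, conj ((X V (dl 0)) x) * (Y V (dl 0)) x ∂P)
      (∫ V, ⟪ContinuousLinearMap.adjoint (Y V) (dl 0),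
        ContinuousLinearMap.adjoint (X V) (dl 0)⟫_ℂ ∂P) := by
    have h := (Equiv.neg (Site d)).hasSum_iff.mpr E2
    have e : (fun x => ∫ V, conj ((X V (dl 0)) x) * (Y V (dl 0)) x ∂P) =
        (fun x => ∫ V, (Y V (dl x)) 0 * conj ((X V (dl x)) 0) ∂P) ∘ ⇑(Equiv.neg (Site d)) :=
      funext key
    rw [e]
    exact h
  exact E1.unique E3

/-- mean square -/
lemma int_self {F : (Site d → α) → L2 (Site d)} (hF : StronglyMeasurable F) {R : ℝ}
    (hR : ∀ V, ‖F V‖ ≤ R) (P : Measure (Site d → α)) [IsProbabilityMeasure P] :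
    ENNReal.ofReal (∫ V, ⟪F V, F V⟫_ℂ ∂P).re = ∫⁻ V, ‖F V‖ₑ ^ 2 ∂P := by
  have e1 : ∀ V, ⟪F V, F V⟫_ℂ = ((‖F V‖ ^ 2 : ℝ) : ℂ) := by
    intro V
    rw [inner_self_eq_norm_sq_to_K]
    norm_cast
  simp only [e1]
  rw [integral_complex_ofReal, Complex.ofReal_re]
  rw [ofReal_integral_eq_lintegral_ofReal]
  · refine lintegral_congr fun V => ?_
    rw [ENNReal.ofReal_pow (norm_nonneg _), ofReal_norm]
  · refine Integrable.of_bound (C := R ^ 2) (hF.norm.pow 2).aestronglyMeasurable ?_
    refine Eventually.of_forall fun V => ?_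
    rw [Real.norm_of_nonneg (by positivity)]
    exact pow_le_pow_left₀ (norm_nonneg _) (hR V) 2
  · exact Eventually.of_forall fun _ => by positivity

theorem tr_sq (hX : Cv X) (ρ : Measure α) [IsProbabilityMeasure ρ] :
    ∫⁻ V, ‖X V (dl 0)‖ₑ ^ 2 ∂(Measure.infinitePi fun _ : Site d => ρ) =
      ∫⁻ V, ‖ContinuousLinearMap.adjoint (X V) (dl 0)‖ₑ ^ 2
        ∂(Measure.infinitePi fun _ : Site d => ρ) := by
  obtain ⟨R, hR⟩ := hX.bdd
  have h1 := int_self (hX.sm 0) (fun V => norm_dl_le hR V 0)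
    (Measure.infinitePi fun _ : Site d => ρ)
  have h2 := int_self (hX.adj.sm 0) (R := R) (fun V => norm_dl_le
    (X := fun V => ContinuousLinearMap.adjoint (X V)) (R := R)
      (fun V => by rw [LinearIsometryEquiv.norm_map]; exact hR V) V 0)
    (Measure.infinitePi fun _ : Site d => ρ)
  rw [← h1, ← h2, tr hX hX]

end Cv

/-! ### the evolutions -/

section ev

variable [TopologicalSpace α] [SecondCountableTopology α] [BorelSpace α]
  {c : ℝ} {ev : (Site d → ℝ) → UG (L2 (Site d))} {p p' : α → ℝ}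

/-- potential read off from the environment -/
def pot (p : α → ℝ) (V : Site d → α) : Site d → ℝ := fun x => p (V x)

lemma cont_pot (hp : Continuous p) : Continuous (pot p : (Site d → α) → Site d → ℝ) := by
  unfold pot
  fun_prop

omit [SecondCountableTopology α] [BorelSpace α] [TopologicalSpace α] [MeasurableSpace α] in
lemma adj_U (W : UG (L2 (Site d))) (t : ℝ) : ContinuousLinearMap.adjoint (W.U t) = W.U (-t) := by
  refine ContinuousLinearMap.ext fun x => ext_inner_left ℂ fun y => ?_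
  rw [ContinuousLinearMap.adjoint_inner_right, STAT.inner_adj W (-t), neg_neg]

omit [SecondCountableTopology α] [BorelSpace α] [TopologicalSpace α] [MeasurableSpace α] in
lemma adj_compU (A : L2 (Site d) →L[ℂ] L2 (Site d)) (W : UG (L2 (Site d))) (t : ℝ)
    (x : L2 (Site d)) : ContinuousLinearMap.adjoint (A.comp (W.U t)) x =
      W.U (-t) (ContinuousLinearMap.adjoint A x) := by
  rw [ContinuousLinearMap.adjoint_comp, adj_U, ContinuousLinearMap.comp_apply]

lemma cvU (hev : ∀ V, IsGrp c V (ev V)) (hp : Continuous p) (t : ℝ) :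
    Cv fun V : Site d → α => (ev (pot p V)).U t := by
  refine ⟨fun z S hS V ψ => ?_, fun x y => ?_, 1, fun V => ?_⟩
  · exact ALL.a_COV d c ev hev z S hS (pot p V) t ψ
  · exact ((STAT.cont_eval x).comp
      (contU hev (cont_pot hp) continuous_const continuous_const)).measurable
  · refine ContinuousLinearMap.opNorm_le_bound _ zero_le_one fun x => ?_
    rw [(ev _).norm', one_mul]

/-- `U'(-s) v U(s) δ₀` -/
noncomputable def ta (ev : (Site d → ℝ) → UG (L2 (Site d))) (p' p : α → ℝ)
    (v : (Site d → α) → L2 (Site d) →L[ℂ] L2 (Site d)) (s : ℝ) (V : Site d → α) : L2 (Site d) :=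
  (ev (pot p' V)).U (-s) (v V ((ev (pot p V)).U s (dl 0)))

theorem stat_v (hev : ∀ V, IsGrp c V (ev V)) (hp : Continuous p) (hp' : Continuous p')
    {v : (Site d → α) → L2 (Site d) →L[ℂ] L2 (Site d)} (hv : Cv v)
    (ρ : Measure α) [IsProbabilityMeasure ρ] (s s' a : ℝ) :
    ∫ V, ⟪ta ev p' p v (s + a) V, ta ev p' p v (s' + a) V⟫_ℂ
        ∂(Measure.infinitePi fun _ : Site d => ρ) =
      ∫ V, ⟪ta ev p' p v s V, ta ev p' p v s' V⟫_ℂ
        ∂(Measure.infinitePi fun _ : Site d => ρ) := by
  -- the families `X_s = U'(-s) v U(s)` and `X_s U(a)`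
  have hXs : ∀ s, Cv fun V : Site d → α => ((ev (pot p' V)).U (-s)).comp
      ((v V).comp ((ev (pot p V)).U s)) := fun s =>
    (cvU hev hp' (-s)).comp (hv.comp (cvU hev hp s))
  have hXa : ∀ s, Cv fun V : Site d → α => (((ev (pot p' V)).U (-s)).comp
      ((v V).comp ((ev (pot p V)).U s))).comp ((ev (pot p V)).U a) := fun s =>
    (hXs s).comp (cvU hev hp a)
  have L : ∀ V, ⟪ta ev p' p v (s + a) V, ta ev p' p v (s' + a) V⟫_ℂ =
      ⟪((((ev (pot p' V)).U (-s)).comp ((v V).comp ((ev (pot p V)).U s))).comp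
        ((ev (pot p V)).U a)) (dl 0), ((((ev (pot p' V)).U (-s')).comp
        ((v V).comp ((ev (pot p V)).U s'))).comp ((ev (pot p V)).U a)) (dl 0)⟫_ℂ := by
    intro V
    have e : ∀ t, ta ev p' p v (t + a) V = (ev (pot p' V)).U (-a)
        (((((ev (pot p' V)).U (-t)).comp ((v V).comp ((ev (pot p V)).U t))).comp
        ((ev (pot p V)).U a)) (dl 0)) := by
      intro t
      unfold ta
      simp only [ContinuousLinearMap.comp_apply]
      rw [(ev (pot p V)).add' t a, neg_add_rev, (ev (pot p' V)).add' (-a) (-t)]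
    rw [e, e, STAT.inner_UG]
  simp only [L]
  rw [(hXa s).tr (hXa s')]
  have M : ∀ V, ⟪ContinuousLinearMap.adjoint ((((ev (pot p' V)).U (-s')).comp
        ((v V).comp ((ev (pot p V)).U s'))).comp ((ev (pot p V)).U a)) (dl 0),
      ContinuousLinearMap.adjoint ((((ev (pot p' V)).U (-s)).comp
        ((v V).comp ((ev (pot p V)).U s))).comp ((ev (pot p V)).U a)) (dl 0)⟫_ℂ =
      ⟪ContinuousLinearMap.adjoint (((ev (pot p' V)).U (-s')).comp
        ((v V).comp ((ev (pot p V)).U s'))) (dl 0),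
      ContinuousLinearMap.adjoint (((ev (pot p' V)).U (-s)).comp
        ((v V).comp ((ev (pot p V)).U s))) (dl 0)⟫_ℂ := by
    intro V
    rw [adj_compU, adj_compU, STAT.inner_UG]
  simp only [M]
  rw [← (hXs s).tr (hXs s')]
  rfl

/-- the mean square of `D U(s) δ₀` does not depend on `s` -/
theorem sq_U (hev : ∀ V, IsGrp c V (ev V)) (hp : Continuous p)
    {D : (Site d → α) → L2 (Site d) →L[ℂ] L2 (Site d)} (hD : Cv D)
    (ρ : Measure α) [IsProbabilityMeasure ρ] (s : ℝ) :
    ∫⁻ V, ‖D V ((ev (pot p V)).U s (dl 0))‖ₑ ^ 2 ∂(Measure.infinitePi fun _ : Site d => ρ) =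
      ∫⁻ V, ‖D V (dl 0)‖ₑ ^ 2 ∂(Measure.infinitePi fun _ : Site d => ρ) := by
  have h1 := (hD.comp (cvU hev hp s)).tr_sq ρ
  have h2 := hD.tr_sq ρ
  rw [h2]
  refine Eq.trans h1 ?_
  refine lintegral_congr fun V => ?_
  rw [adj_compU, ← ofReal_norm, ← ofReal_norm, (ev _).norm']

end ev

end Pool.Agent.Helper26.Cm
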